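import Mathlib
import Pool.Agent.H6.CommonZero

/-!
# Continuation of a nondegenerate solution of a polynomial system

Let `E_1, …, E_M` be polynomials in the unknowns `Y_1, …, Y_M` and a parameter `s`, over `ℂ`,
that vanish at the origin and whose linear parts in `Y` are independent there.  Then for all
but countably many values `c` of the parameter `s` the system `E_i(c, Y) = 0` has a solution.
-/

set_option autoImplicit false

namespace Pool.Agent.H84

open MvPolynomial Pool.Agent.H6

/-- For all but countably many `c` the system has a solution with `s = c`. -/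
theorem countable_bad {M : ℕ} (E : Fin M → MvPolynomial (Option (Fin M)) ℂ)
    (h0 : ∀ i, eval (0 : Option (Fin M) → ℂ) (E i) = 0)
    (hJ : (vanishingIdeal ℂ {(0 : Option (Fin M) → ℂ)} :
        Ideal (MvPolynomial (Option (Fin M)) ℂ)) ≤
      (Ideal.span (Set.range E) ⊔ Ideal.span {X none}) ⊔
        (vanishingIdeal ℂ {(0 : Option (Fin M) → ℂ)} :
          Ideal (MvPolynomial (Option (Fin M)) ℂ)) • (vanishingIdeal ℂ
            {(0 : Option (Fin M) → ℂ)} : Ideal (MvPolynomial (Option (Fin M)) ℂ))) :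
    Set.Countable {c : ℂ | ¬ ∃ y : Option (Fin M) → ℂ, y none = c ∧
      ∀ i, eval y (E i) = 0} := by
  classical
  set 𝔪 : Ideal (MvPolynomial (Option (Fin M)) ℂ) :=
    vanishingIdeal ℂ {(0 : Option (Fin M) → ℂ)} with h𝔪
  have hmem : ∀ P : MvPolynomial (Option (Fin M)) ℂ, P ∈ 𝔪 ↔ eval 0 P = 0 := by
    intro P
    rw [h𝔪, mem_vanishingIdeal_singleton_iff]
    rfl
  have hmax : 𝔪.IsMaximal := by rw [h𝔪]; infer_instance
  set I : Ideal (MvPolynomial (Option (Fin M)) ℂ) := Ideal.span (Set.range E) with hI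
  have hI𝔪 : I ≤ 𝔪 := by
    rw [hI, Ideal.span_le]
    rintro _ ⟨i, rfl⟩
    exact (hmem _).mpr (h0 i)
  obtain ⟨p, hp, hp𝔪⟩ := Ideal.exists_minimalPrimes_le hI𝔪
  have hpp : p.IsPrime := hp.1.1
  have hIp : I ≤ p := hp.1.2
  have hne : p ≠ 𝔪 := by
    rintro rfl
    have hle := Ideal.height_le_card_of_mem_minimalPrimes_span (Set.finite_range E) hp
    rw [height_vanishing_zero] at hle
    have h2 : (Set.range E).ncard ≤ Nat.card (Fin M) := by
      rw [← Set.image_univ, ← Set.ncard_univ]
      exact Set.ncard_image_le Set.finite_univ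
    have h3 : Nat.card (Option (Fin M)) ≤ (Set.range E).ncard := by exact_mod_cast hle
    simp only [Nat.card_eq_fintype_card, Fintype.card_option, Fintype.card_fin] at h2 h3
    omega
  have hs : (X none : MvPolynomial (Option (Fin M)) ℂ) ∉ p := by
    intro hs
    have h1 : 𝔪 ≤ p ⊔ 𝔪 • 𝔪 := by
      refine hJ.trans (sup_le_sup_right (sup_le hIp ?_) _)
      rw [Ideal.span_le]
      rintro _ rfl
      exact hs
    obtain ⟨r, hr1, hr2⟩ := Submodule.exists_sub_one_mem_and_smul_le_of_fg_of_le_sup
      (IsNoetherian.noetherian 𝔪) le_rfl h1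
    apply hne
    apply le_antisymm hp𝔪
    intro a ha
    have h2 : r • a ∈ p := hr2 (Submodule.smul_mem_pointwise_smul a r _ ha)
    rw [smul_eq_mul] at h2
    rcases hpp.mem_or_mem h2 with h3 | h3
    · exfalso
      apply hmax.ne_top
      rw [Ideal.eq_top_iff_one]
      have : (1 : MvPolynomial (Option (Fin M)) ℂ) = r - (r - 1) := by ring
      rw [this]
      exact 𝔪.sub_mem (hp𝔪 h3) hr1
    · exact h3
  -- the quotient
  let A := MvPolynomial (Option (Fin M)) ℂ ⧸ p
  let Fr := FractionRing A
  let s : A := Ideal.Quotient.mk p (X none)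
  have hsc : ∀ c : ℂ, s - algebraMap ℂ A c = Ideal.Quotient.mk p (X none - C c) := by
    intro c
    rw [map_sub]
    rfl
  have hsc0 : ∀ c : ℂ, s - algebraMap ℂ A c ≠ 0 := by
    intro c hc
    rw [hsc, Ideal.Quotient.eq_zero_iff_mem] at hc
    have h1 := (hmem _).mp (hp𝔪 hc)
    rw [map_sub, eval_X, eval_C, Pi.zero_apply, zero_sub, neg_eq_zero] at h1
    rw [h1, map_zero, sub_zero] at hc
    exact hs hc
  have hinj : Function.Injective (algebraMap A Fr) := IsFractionRing.injective A Fr
  have hcomp : ∀ c : ℂ, algebraMap ℂ Fr c = algebraMap A Fr (algebraMap ℂ A c) :=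
    fun c => IsScalarTower.algebraMap_apply ℂ A Fr c
  have htr : Transcendental ℂ (algebraMap A Fr s) := by
    intro halg
    obtain ⟨P, hP0, hP⟩ := halg
    have hsplit := IsAlgClosed.splits P
    obtain ⟨c, hc⟩ : ∃ c : ℂ, algebraMap A Fr s - algebraMap ℂ Fr c = 0 := by
      have h1 := hsplit.eq_prod_roots
      rw [h1, map_mul, Polynomial.aeval_C, map_multiset_prod, Multiset.map_map] at hP
      rcases mul_eq_zero.mp hP with h2 | h2
      · exfalso
        rw [map_eq_zero, Polynomial.leadingCoeff_eq_zero] at h2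
        exact hP0 h2
      · rw [Multiset.prod_eq_zero_iff, Multiset.mem_map] at h2
        obtain ⟨c, -, hc⟩ := h2
        refine ⟨c, ?_⟩
        simpa using hc
    rw [hcomp, ← map_sub, map_eq_zero_iff _ hinj] at hc
    exact hsc0 c hc
  have hli := htr.linearIndependent_sub_inv
  -- the bad set is contained in the set of `c` with `s - c` a unit
  have hsub : {c : ℂ | ¬ ∃ y : Option (Fin M) → ℂ, y none = c ∧ ∀ i, eval y (E i) = 0} ⊆
      {c : ℂ | IsUnit (s - algebraMap ℂ A c)} := by
    intro c hc
    by_contra hu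
    apply hc
    obtain ⟨N, hN, hcN⟩ := exists_max_ideal_of_mem_nonunits (mem_nonunits_iff.mpr hu)
    have hNc : (N.comap (Ideal.Quotient.mk p)).IsMaximal :=
      Ideal.comap_isMaximal_of_surjective _ Ideal.Quotient.mk_surjective
    obtain ⟨y, hy⟩ := eq_vanishingIdeal_singleton_of_isMaximal ℂ hNc
    have hval : ∀ P : MvPolynomial (Option (Fin M)) ℂ, Ideal.Quotient.mk p P ∈ N →
        eval y P = 0 := by
      intro P hP
      have h1 : P ∈ N.comap (Ideal.Quotient.mk p) := hP
      rw [hy, mem_vanishingIdeal_singleton_iff] at h1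
      exact h1
    refine ⟨y, ?_, fun i => ?_⟩
    · have h1 := hval (X none - C c) (by rw [← hsc]; exact hcN)
      rw [map_sub, eval_X, eval_C, sub_eq_zero] at h1
      exact h1
    · apply hval
      rw [Ideal.Quotient.eq_zero_iff_mem.mpr (hIp (Ideal.subset_span ⟨i, rfl⟩))]
      exact N.zero_mem
  refine Set.Countable.mono hsub ?_
  -- linear independence in `A`
  set B := {c : ℂ | IsUnit (s - algebraMap ℂ A c)} with hB
  let w : B → A := fun c => ((c.2.unit⁻¹ : Aˣ) : A)
  have hw : ∀ c : B, algebraMap A Fr (w c) =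
      (algebraMap A Fr s - algebraMap ℂ Fr (c : ℂ))⁻¹ := by
    intro c
    apply eq_inv_of_mul_eq_one_left
    rw [hcomp, ← map_sub, ← map_mul]
    have h1 : w c * (s - algebraMap ℂ A (c : ℂ)) = 1 := by
      have := c.2.unit.inv_mul
      exact this
    rw [h1, map_one]
  have hwli : LinearIndependent ℂ w := by
    apply LinearIndependent.of_comp ((Algebra.linearMap A Fr).restrictScalars ℂ)
    have h2 : (((Algebra.linearMap A Fr).restrictScalars ℂ) ∘ w) =
        fun c : B => (algebraMap A Fr s - algebraMap ℂ Fr (c : ℂ))⁻¹ := by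
      funext c
      exact hw c
    rw [h2]
    exact hli.comp (fun c : B => (c : ℂ)) Subtype.val_injective
  have hrank : Module.rank ℂ A ≤ Cardinal.aleph0 := by
    have h1 : Module.rank ℂ A ≤ Module.rank ℂ (MvPolynomial (Option (Fin M)) ℂ) :=
      LinearMap.rank_le_of_surjective (Ideal.Quotient.mkₐ ℂ p).toLinearMap
        (Ideal.Quotient.mk_surjective)
    refine h1.trans ?_
    rw [← (basisMonomials (Option (Fin M)) ℂ).mk_eq_rank'']
    exact Cardinal.mk_le_aleph0
  have hcard := hwli.cardinal_le_rank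
  have : Cardinal.mk B ≤ Cardinal.aleph0 := hcard.trans hrank
  exact Cardinal.le_aleph0_iff_set_countable.mp this

end Pool.Agent.H84
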