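import Mathlib
import Pool.Agent.H84.Continuation
import Pool.Agent.H6.LineThrough

/-!
# Lines on which a form belongs to a given family of polynomials

Let `Φ` be a family of polynomials of degree `≤ D` in `t`, with `D + 1 - δ` parameters, whose
tangent space at the parameter `0` is a complement of the polynomials of degree `< δ`.  If
`δ ≤ 2 n`, then for a special form `F_0` of degree `D` in `n + 2` variables, for every form `F`
and for all but countably many `c` there is a line on which `(1 - c) F_0 + c F` belongs to `Φ`.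
-/

set_option autoImplicit false

namespace Pool.Agent.H84

open MvPolynomial Pool.Agent.H6

section Line

variable {R S : Type*} [CommRing R] [Algebra ℂ R] [CommRing S] [Algebra ℂ S]

/-- The restriction of `G` to the line `x + t v` (coefficients in `R`). -/
noncomputable def lineR {n : ℕ} (x v : Fin n → R) (G : MvPolynomial (Fin n) ℂ) : Polynomial R :=
  aeval (fun j => Polynomial.C (x j) + Polynomial.X * Polynomial.C (v j)) G

lemma map_lineR {n : ℕ} (φ : R →ₐ[ℂ] S) (x v : Fin n → R) (G : MvPolynomial (Fin n) ℂ) :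
    (lineR x v G).map (φ : R →+* S) = lineR (fun j => φ (x j)) (fun j => φ (v j)) G := by
  unfold lineR
  have h : ((Polynomial.mapRingHom (φ : R →+* S)).comp
      (aeval (fun j => Polynomial.C (x j) + Polynomial.X * Polynomial.C (v j)) :
        MvPolynomial (Fin n) ℂ →ₐ[ℂ] Polynomial R).toRingHom) =
      (aeval (fun j => Polynomial.C (φ (x j)) + Polynomial.X * Polynomial.C (φ (v j))) :
        MvPolynomial (Fin n) ℂ →ₐ[ℂ] Polynomial S).toRingHom := by
    apply MvPolynomial.ringHom_ext
    · intro r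
      simp [Polynomial.algebraMap_apply]
    · intro i; simp
  exact DFunLike.congr_fun h G

lemma lineR_eq_onLine {n : ℕ} (x v : Fin n → ℂ) (G : MvPolynomial (Fin n) ℂ) :
    lineR x v G = onLine x v G := rfl

lemma natDegree_lineR {n : ℕ} (x v : Fin n → R) (G : MvPolynomial (Fin n) ℂ) {e : ℕ}
    (hG : G.totalDegree ≤ e) : (lineR x v G).natDegree ≤ e := by
  unfold lineR
  rw [aeval_def, eval₂_eq']
  apply Polynomial.natDegree_sum_le_of_forall_le
  intro d hd
  refine Polynomial.natDegree_mul_le.trans ?_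
  rw [Polynomial.algebraMap_apply, Polynomial.natDegree_C, zero_add]
  refine (Polynomial.natDegree_prod_le _ _).trans ?_
  have h1 : ∑ i, d i ≤ e := by
    refine le_trans ?_ hG
    have := le_totalDegree hd
    rwa [Finsupp.sum_fintype _ _ (fun _ => rfl)] at this
  refine le_trans (Finset.sum_le_sum fun i _ => ?_) h1
  refine Polynomial.natDegree_pow_le.trans ?_
  have h2 : (Polynomial.C (x i) + Polynomial.X * Polynomial.C (v i) : Polynomial R).natDegree
      ≤ 1 := by
    refine (Polynomial.natDegree_add_le _ _).trans ?_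
    simp only [Polynomial.natDegree_C, zero_le, sup_of_le_right]
    refine (Polynomial.natDegree_mul_le).trans ?_
    rw [Polynomial.natDegree_C, add_zero]
    exact Polynomial.natDegree_X_le
  calc d i * _ ≤ d i * 1 := Nat.mul_le_mul_left _ h2
    _ = d i := mul_one _

/-- The first vector of the frame. -/
def fx {n : ℕ} (ξ : Fin n → R) : Fin (n + 2) → R := Fin.cons 1 (Fin.cons 0 ξ)

/-- The second vector of the frame. -/
def fv {n : ℕ} (η : Fin n → R) : Fin (n + 2) → R := Fin.cons 0 (Fin.cons 1 η)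

/-- The form of degree `D` in `x_0`, `x_1` that restricts to `Φ0`. -/
noncomputable def homog (n D : ℕ) (Φ0 : Polynomial ℂ) : MvPolynomial (Fin (n + 2)) ℂ :=
  ∑ i ∈ Finset.range (D + 1), C (Φ0.coeff i) * X 1 ^ i * X 0 ^ (D - i)

/-- The special form of degree `D`. -/
noncomputable def specialForm (n D δ : ℕ) (Φ0 : Polynomial ℂ) : MvPolynomial (Fin (n + 2)) ℂ :=
  homog n D Φ0 + ∑ j : Fin n, if 2 * (j : ℕ) < δ then
    X j.succ.succ * X 1 ^ (2 * (j : ℕ)) * X 0 ^ (D - 1 - 2 * (j : ℕ)) else 0

lemma isHomogeneous_specialForm {n D δ : ℕ} (hδ : δ ≤ D) (Φ0 : Polynomial ℂ) :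
    (specialForm n D δ Φ0).IsHomogeneous D := by
  unfold specialForm homog
  apply IsHomogeneous.add
  · apply IsHomogeneous.sum
    intro i hi
    have hi' : i ≤ D := Nat.lt_succ_iff.mp (Finset.mem_range.mp hi)
    have h1 := ((isHomogeneous_C (Fin (n + 2)) (Φ0.coeff i)).mul
      ((isHomogeneous_X ℂ (1 : Fin (n + 2))).pow i)).mul
      ((isHomogeneous_X ℂ (0 : Fin (n + 2))).pow (D - i))
    have h2 : 0 + 1 * i + 1 * (D - i) = D := by omega
    rwa [h2] at h1
  · apply IsHomogeneous.sum
    intro j _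
    split_ifs with hj
    · have h1 := ((isHomogeneous_X ℂ (j.succ.succ : Fin (n + 2))).mul
        ((isHomogeneous_X ℂ (1 : Fin (n + 2))).pow (2 * (j : ℕ)))).mul
        ((isHomogeneous_X ℂ (0 : Fin (n + 2))).pow (D - 1 - 2 * (j : ℕ)))
      have h2 : 1 + 1 * (2 * (j : ℕ)) + 1 * (D - 1 - 2 * (j : ℕ)) = D := by omega
      rwa [h2] at h1
    · exact isHomogeneous_zero _ _ _

lemma lineR_homog {n D : ℕ} {Φ0 : Polynomial ℂ} (hΦ : Φ0.natDegree ≤ D) (ξ η : Fin n → R) :
    lineR (fx ξ) (fv η) (homog n D Φ0) = Φ0.map (algebraMap ℂ R) := by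
  unfold lineR homog
  rw [map_sum]
  conv_rhs => rw [Φ0.as_sum_range' (D + 1) (by omega)]
  rw [Polynomial.map_sum]
  apply Finset.sum_congr rfl
  intro i _
  rw [map_mul, map_mul, map_pow, map_pow, aeval_X, aeval_X, aeval_C]
  simp [fx, fv, Polynomial.algebraMap_apply, Polynomial.C_mul_X_pow_eq_monomial]

lemma lineR_specialForm {n D δ : ℕ} {Φ0 : Polynomial ℂ} (hΦ : Φ0.natDegree ≤ D)
    (ξ η : Fin n → R) :
    lineR (fx ξ) (fv η) (specialForm n D δ Φ0) = Φ0.map (algebraMap ℂ R) +
      ∑ j : Fin n, if 2 * (j : ℕ) < δ then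
        (Polynomial.C (ξ j) + Polynomial.X * Polynomial.C (η j)) *
          Polynomial.X ^ (2 * (j : ℕ)) else 0 := by
  have h1 := lineR_homog (R := R) hΦ ξ η
  unfold lineR at h1 ⊢
  unfold specialForm
  rw [map_add, h1, map_sum]
  congr 1
  apply Finset.sum_congr rfl
  intro j _
  split_ifs with hj
  · rw [map_mul, map_mul, map_pow, map_pow, aeval_X, aeval_X, aeval_X]
    simp [fx, fv]
  · exact map_zero _

omit [Algebra ℂ R] in
lemma sum_pairs {n δ : ℕ} (hδ : δ ≤ 2 * n) (y : ℕ → R) (hy : ∀ k, δ ≤ k → y k = 0) :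
    (∑ j : Fin n, if 2 * (j : ℕ) < δ then
        (Polynomial.C (y (2 * (j : ℕ))) + Polynomial.X * Polynomial.C (y (2 * (j : ℕ) + 1))) *
          Polynomial.X ^ (2 * (j : ℕ)) else 0) =
      ∑ i ∈ Finset.range δ, Polynomial.C (y i) * Polynomial.X ^ i := by
  have h1 : ∀ n : ℕ, (∑ j ∈ Finset.range n, if 2 * j < δ then
        (Polynomial.C (y (2 * j)) + Polynomial.X * Polynomial.C (y (2 * j + 1))) *
          Polynomial.X ^ (2 * j) else 0) =
      ∑ i ∈ Finset.range (2 * n), Polynomial.C (y i) * Polynomial.X ^ i := by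
    intro n
    induction n with
    | zero => simp
    | succ n ih =>
      rw [Finset.sum_range_succ, ih, show 2 * (n + 1) = 2 * n + 1 + 1 by ring,
        Finset.sum_range_succ, Finset.sum_range_succ]
      split_ifs with h
      · ring
      · rw [hy (2 * n) (by omega), hy (2 * n + 1) (by omega)]
        simp
  rw [Fin.sum_univ_eq_sum_range (fun j => if 2 * j < δ then
        (Polynomial.C (y (2 * j)) + Polynomial.X * Polynomial.C (y (2 * j + 1))) *
          Polynomial.X ^ (2 * j) else 0) n, h1]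
  symm
  apply Finset.sum_subset
  · intro i hi
    rw [Finset.mem_range] at hi ⊢
    omega
  · intro i _ hi
    rw [Finset.mem_range, not_lt] at hi
    rw [hy i hi]
    simp

end Line

/-- Coefficients of a vanishing sum of a polynomial of degree `< δ` and a multiple of a monic
polynomial of degree `δ`. -/
lemma eq_zero_of_add_monic_mul {S : Type*} [CommRing S] {δ : ℕ} {h p w : Polynomial S}
    (hm : h.Monic) (hdeg : h.natDegree = δ) (hp : ∀ i, δ ≤ i → p.coeff i = 0)
    (heq : p = h * w) : w = 0 ∧ p = 0 := by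
  have hw : w = 0 := by
    by_contra hw
    have h1 : p.coeff (δ + w.natDegree) = w.leadingCoeff := by
      rw [heq, ← hdeg, Polynomial.coeff_mul_degree_add_degree, hm.leadingCoeff, one_mul]
    rw [hp _ (by omega)] at h1
    exact hw (Polynomial.leadingCoeff_eq_zero.mp h1.symm)
  exact ⟨hw, by rw [heq, hw, mul_zero]⟩

/-- **The system.**  For all but countably many `c` there is a line in the standard chart on which
`(1 - c) F_0 + c F` belongs to the family `Φ`. -/
theorem exists_line_family {n D δ μ : ℕ} (hδn : δ ≤ 2 * n) (hδD : δ + μ = D + 1) (hμ : 1 ≤ μ)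
    (Φ : Polynomial (MvPolynomial (Fin μ) ℂ)) (Φ0 h0 : Polynomial ℂ)
    (hΦdeg : Φ.natDegree ≤ D) (hΦ0 : Φ.map (eval (0 : Fin μ → ℂ)) = Φ0)
    (hh0 : h0.Monic) (hh0deg : h0.natDegree = δ)
    (hΦ : ∀ (S : Type) [CommRing S] [Algebra ℂ S] (ζ : Fin μ → S), (∀ i j, ζ i * ζ j = 0) →
      ∃ w : Polynomial S, Φ.map (aeval ζ : MvPolynomial (Fin μ) ℂ →ₐ[ℂ] S).toRingHom =
        Φ0.map (algebraMap ℂ S) + h0.map (algebraMap ℂ S) * w ∧ (w = 0 → ζ = 0))
    (F : MvPolynomial (Fin (n + 2)) ℂ) (hF : F.totalDegree ≤ D) :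
    Set.Countable {c : ℂ | ¬ ∃ (ξ η : Fin n → ℂ) (ζ : Fin μ → ℂ),
      (1 - c) • onLine (fx ξ) (fv η) (specialForm n D δ Φ0) + c • onLine (fx ξ) (fv η) F =
        Φ.map (eval ζ)} := by
  classical
  have hΦ0deg : Φ0.natDegree ≤ D := by
    rw [← hΦ0]
    exact Polynomial.natDegree_map_le.trans hΦdeg
  set R := MvPolynomial (Option (Fin (D + 1))) ℂ with hR
  let Y : ℕ → R := fun k => if h : k < D + 1 then X (some ⟨k, h⟩) else 0
  let Yδ : ℕ → R := fun k => if k < δ then Y k else 0
  let ξ : Fin n → R := fun j => Yδ (2 * (j : ℕ))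
  let η : Fin n → R := fun j => Yδ (2 * (j : ℕ) + 1)
  let Z : Fin μ → R := fun i => Y (δ + i)
  let F0 := specialForm n D δ Φ0
  let P : Polynomial R := Polynomial.C (1 - X none) * lineR (fx ξ) (fv η) F0 +
    Polynomial.C (X none) * lineR (fx ξ) (fv η) F -
    Φ.map (aeval Z : MvPolynomial (Fin μ) ℂ →ₐ[ℂ] R).toRingHom
  have hF0line : lineR (fx ξ) (fv η) F0 = Φ0.map (algebraMap ℂ R) +
      ∑ i ∈ Finset.range δ, Polynomial.C (Yδ i) * Polynomial.X ^ i := by
    have h1 := lineR_specialForm (R := R) (δ := δ) hΦ0deg ξ η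
    rw [sum_pairs hδn Yδ (fun k hk => if_neg (by omega))] at h1
    exact h1
  -- evaluation of `P`
  have hPmap : ∀ (S : Type) [CommRing S] [Algebra ℂ S] (φ : R →ₐ[ℂ] S),
      P.map (φ : R →+* S) = Polynomial.C (1 - φ (X none)) *
        lineR (fun j => φ (fx ξ j)) (fun j => φ (fv η j)) F0 +
        Polynomial.C (φ (X none)) * lineR (fun j => φ (fx ξ j)) (fun j => φ (fv η j)) F -
        Φ.map (aeval (fun i => φ (Z i)) : MvPolynomial (Fin μ) ℂ →ₐ[ℂ] S).toRingHom := by
    intro S _ _ φ
    show (Polynomial.C (1 - X none) * lineR (fx ξ) (fv η) F0 +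
      Polynomial.C (X none) * lineR (fx ξ) (fv η) F -
      Φ.map (aeval Z : MvPolynomial (Fin μ) ℂ →ₐ[ℂ] R).toRingHom).map (φ : R →+* S) = _
    rw [Polynomial.map_sub, Polynomial.map_add, Polynomial.map_mul, Polynomial.map_mul,
      map_lineR, map_lineR, Polynomial.map_C, Polynomial.map_C, Polynomial.map_map]
    have h1 : (φ : R →+* S).comp (aeval Z : MvPolynomial (Fin μ) ℂ →ₐ[ℂ] R).toRingHom =
        (aeval (fun i => φ (Z i)) : MvPolynomial (Fin μ) ℂ →ₐ[ℂ] S).toRingHom := by
      apply MvPolynomial.ringHom_ext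
      · intro r; simp
      · intro i; simp
    rw [h1]
    simp
  -- the degree of the evaluations of `P`
  have hPdeg : ∀ y : Option (Fin (D + 1)) → ℂ, (P.map (eval y)).natDegree ≤ D := by
    intro y
    have h1 := hPmap ℂ (aeval y : R →ₐ[ℂ] ℂ)
    have h2 : ((aeval y : R →ₐ[ℂ] ℂ) : R →+* ℂ) = eval y := by
      ext <;> simp
    rw [h2] at h1
    rw [h1]
    refine (Polynomial.natDegree_sub_le _ _).trans (max_le ?_ ?_)
    · refine (Polynomial.natDegree_add_le _ _).trans (max_le ?_ ?_)
      · refine (Polynomial.natDegree_C_mul_le _ _).trans ?_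
        rw [lineR_eq_onLine]
        exact natDegree_onLine _ _ _
          (isHomogeneous_specialForm (by omega) Φ0).totalDegree_le
      · refine (Polynomial.natDegree_C_mul_le _ _).trans ?_
        rw [lineR_eq_onLine]
        exact natDegree_onLine _ _ _ hF
    · exact Polynomial.natDegree_map_le.trans hΦdeg
  let E : Fin (D + 1) → R := fun i => P.coeff i
  have hcount := countable_bad E ?_ ?_
  · refine hcount.mono ?_
    intro c hc hcon
    apply hc
    obtain ⟨y, hyc, hy⟩ := hcon
    have hPy : P.map (eval y) = 0 := by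
      ext i
      rw [Polynomial.coeff_zero, Polynomial.coeff_map]
      by_cases hi : i < D + 1
      · exact hy ⟨i, hi⟩
      · rw [← Polynomial.coeff_map]
        exact Polynomial.coeff_eq_zero_of_natDegree_lt (lt_of_le_of_lt (hPdeg y) (by omega))
    have h1 := hPmap ℂ (aeval y : R →ₐ[ℂ] ℂ)
    have h2 : ((aeval y : R →ₐ[ℂ] ℂ) : R →+* ℂ) = eval y := by
      ext <;> simp
    rw [h2, hPy] at h1
    have h3 : (aeval y : R →ₐ[ℂ] ℂ) (X none) = c := by rw [aeval_X, hyc]
    rw [h3] at h1
    refine ⟨fun j => aeval y (ξ j), fun j => aeval y (η j), fun i => aeval y (Z i), ?_⟩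
    have h4 : (fun j => (aeval y : R →ₐ[ℂ] ℂ) (fx ξ j)) = fx (fun j => aeval y (ξ j)) := by
      funext j
      refine Fin.cases ?_ (fun j => ?_) j
      · simp [fx]
      · refine Fin.cases ?_ (fun j => ?_) j
        · simp [fx]
        · simp [fx]
    have h5 : (fun j => (aeval y : R →ₐ[ℂ] ℂ) (fv η j)) = fv (fun j => aeval y (η j)) := by
      funext j
      refine Fin.cases ?_ (fun j => ?_) j
      · simp [fv]
      · refine Fin.cases ?_ (fun j => ?_) j
        · simp [fv]
        · simp [fv]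
    rw [h4, h5] at h1
    have h6 : (aeval (fun i => (aeval y : R →ₐ[ℂ] ℂ) (Z i)) :
        MvPolynomial (Fin μ) ℂ →ₐ[ℂ] ℂ).toRingHom = eval (fun i => aeval y (Z i)) := by
      ext <;> simp
    rw [h6] at h1
    have h7 := (sub_eq_zero.mp h1.symm)
    rw [← h7, Polynomial.smul_eq_C_mul, Polynomial.smul_eq_C_mul]
    rfl
  · -- vanishing at the origin
    intro i
    have h1 := hPmap ℂ (aeval 0 : R →ₐ[ℂ] ℂ)
    have h2 : ((aeval (0 : Option (Fin (D + 1)) → ℂ) : R →ₐ[ℂ] ℂ) : R →+* ℂ) = eval 0 := by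
      ext <;> simp
    have hY : ∀ k, (aeval (0 : Option (Fin (D + 1)) → ℂ) : R →ₐ[ℂ] ℂ) (Y k) = 0 := by
      intro k
      show (aeval (0 : Option (Fin (D + 1)) → ℂ) : R →ₐ[ℂ] ℂ)
        (if h : k < D + 1 then X (some ⟨k, h⟩) else 0) = 0
      split_ifs
      · simp
      · simp
    have hYδ : ∀ k, (aeval (0 : Option (Fin (D + 1)) → ℂ) : R →ₐ[ℂ] ℂ) (Yδ k) = 0 := by
      intro k
      show (aeval (0 : Option (Fin (D + 1)) → ℂ) : R →ₐ[ℂ] ℂ) (if k < δ then Y k else 0) = 0
      split_ifs
      · exact hY k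
      · simp
    rw [h2, ← map_lineR, hF0line] at h1
    have h3 : (aeval (0 : Option (Fin (D + 1)) → ℂ) : R →ₐ[ℂ] ℂ) (X none) = 0 := by simp
    rw [h3] at h1
    have h4 : (aeval (fun i => (aeval (0 : Option (Fin (D + 1)) → ℂ) : R →ₐ[ℂ] ℂ) (Z i)) :
        MvPolynomial (Fin μ) ℂ →ₐ[ℂ] ℂ).toRingHom = eval 0 := by
      apply MvPolynomial.ringHom_ext
      · intro r; simp
      · intro i
        simpa using hY (δ + i)
    rw [h4, hΦ0, Polynomial.map_add, Polynomial.map_sum, Polynomial.map_map] at h1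
    have h5 : ∑ i ∈ Finset.range δ, (Polynomial.C (Yδ i) * Polynomial.X ^ i : Polynomial R).map
        ((aeval (0 : Option (Fin (D + 1)) → ℂ) : R →ₐ[ℂ] ℂ) : R →+* ℂ) = 0 := by
      apply Finset.sum_eq_zero
      intro i _
      rw [Polynomial.map_mul, Polynomial.map_C]
      have := hYδ i
      rw [show (((aeval (0 : Option (Fin (D + 1)) → ℂ) : R →ₐ[ℂ] ℂ) : R →+* ℂ) (Yδ i)) = 0
        from this]
      simp
    have h6 : (((aeval (0 : Option (Fin (D + 1)) → ℂ) : R →ₐ[ℂ] ℂ) : R →+* ℂ).comp
        (algebraMap ℂ R)) = RingHom.id ℂ := by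
      ext
      simp
    rw [h5, h6, Polynomial.map_id] at h1
    show eval 0 (P.coeff i) = 0
    rw [← Polynomial.coeff_map, h1]
    simp
  · -- the Jacobian condition
    set 𝔪 : Ideal R := vanishingIdeal ℂ {(0 : Option (Fin (D + 1)) → ℂ)} with h𝔪
    have hmem : ∀ P : R, P ∈ 𝔪 ↔ eval 0 P = 0 := by
      intro P
      rw [h𝔪, mem_vanishingIdeal_singleton_iff]
      rfl
    set J : Ideal R := (Ideal.span (Set.range E) ⊔ Ideal.span {X none}) ⊔ 𝔪 • 𝔪 with hJ
    let S := R ⧸ J
    rcases subsingleton_or_nontrivial S with hsub | hnt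
    · have hJtop : J = ⊤ := Ideal.Quotient.subsingleton_iff.mp hsub
      rw [hJtop]
      exact le_top
    let ψ : R →ₐ[ℂ] S := Ideal.Quotient.mkₐ ℂ J
    have hψ : ∀ a : R, ψ a = 0 ↔ a ∈ J := fun a => Ideal.Quotient.eq_zero_iff_mem
    have hE : ∀ i : Fin (D + 1), ψ (E i) = 0 := by
      intro i
      rw [hψ]
      exact Ideal.mem_sup_left (Ideal.mem_sup_left (Ideal.subset_span ⟨i, rfl⟩))
    have hs : ψ (X none) = 0 := by
      rw [hψ]
      exact Ideal.mem_sup_left (Ideal.mem_sup_right (Ideal.subset_span rfl))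
    have hYmem : ∀ k, Y k ∈ 𝔪 := by
      intro k
      rw [hmem]
      show eval 0 (if h : k < D + 1 then X (some ⟨k, h⟩) else 0 : R) = 0
      split_ifs
      · simp
      · simp
    have hYY : ∀ k l, ψ (Y k) * ψ (Y l) = 0 := by
      intro k l
      rw [← map_mul, hψ]
      exact Ideal.mem_sup_right (Submodule.smul_mem_smul (hYmem k) (hYmem l))
    obtain ⟨w, hw, hw0⟩ := hΦ S (fun i => ψ (Z i)) (fun i j => hYY _ _)
    have h1 := hPmap S ψ
    rw [← map_lineR, hF0line, hs, hw] at h1
    rw [sub_zero, Polynomial.C_1, one_mul, Polynomial.C_0, zero_mul, add_zero,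
      Polynomial.map_add, Polynomial.map_map, Polynomial.map_sum] at h1
    have h6 : ((ψ : R →+* S).comp (algebraMap ℂ R)) = algebraMap ℂ S := by
      ext
      rfl
    rw [h6, add_sub_add_left_eq_sub] at h1
    have hPD : P.natDegree ≤ D := by
      refine (Polynomial.natDegree_sub_le _ _).trans (max_le ?_ ?_)
      · refine (Polynomial.natDegree_add_le _ _).trans (max_le ?_ ?_)
        · exact (Polynomial.natDegree_C_mul_le _ _).trans (natDegree_lineR _ _ _
            (isHomogeneous_specialForm (by omega) Φ0).totalDegree_le)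
        · exact (Polynomial.natDegree_C_mul_le _ _).trans (natDegree_lineR _ _ _ hF)
      · exact Polynomial.natDegree_map_le.trans hΦdeg
    have h7 : P.map (ψ : R →+* S) = 0 := by
      ext i
      rw [Polynomial.coeff_zero, Polynomial.coeff_map]
      by_cases hi : i < D + 1
      · exact hE ⟨i, hi⟩
      · rw [Polynomial.coeff_eq_zero_of_natDegree_lt (lt_of_le_of_lt hPD (by omega))]
        simp
    rw [h7] at h1
    have h8 := sub_eq_zero.mp h1.symm
    have hcoef : ∀ i, (∑ i ∈ Finset.range δ, (Polynomial.C (Yδ i) * Polynomial.X ^ i :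
        Polynomial R).map (ψ : R →+* S)).coeff i = if i < δ then ψ (Y i) else 0 := by
      intro i
      rw [Polynomial.finsetSum_coeff]
      have h9 : ∀ j ∈ Finset.range δ, ((Polynomial.C (Yδ j) * Polynomial.X ^ j :
          Polynomial R).map (ψ : R →+* S)).coeff i = if j = i then ψ (Yδ j) else 0 := by
        intro j _
        rw [Polynomial.coeff_map, Polynomial.coeff_C_mul_X_pow]
        by_cases hij : i = j
        · subst hij
          rw [if_pos rfl, if_pos rfl]
          rfl
        · rw [if_neg hij, if_neg (Ne.symm hij)]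
          exact map_zero _
      rw [Finset.sum_congr rfl h9, Finset.sum_ite_eq' (Finset.range δ) i]
      by_cases hi : i < δ
      · rw [if_pos (Finset.mem_range.mpr hi), if_pos hi]
        show ψ (if i < δ then Y i else 0) = ψ (Y i)
        rw [if_pos hi]
      · rw [if_neg (fun h => hi (Finset.mem_range.mp h)), if_neg hi]
    obtain ⟨hw1, hp1⟩ := eq_zero_of_add_monic_mul (hh0.map (algebraMap ℂ S))
      (δ := δ) (by rw [hh0.natDegree_map, hh0deg]) (fun i hi => by rw [hcoef, if_neg (by omega)]) h8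
    have hζ := hw0 hw1
    have hYJ : ∀ k, k < D + 1 → Y k ∈ J := by
      intro k hk
      rw [← hψ]
      by_cases hkδ : k < δ
      · have := hcoef k
        rw [hp1, Polynomial.coeff_zero, if_pos hkδ] at this
        exact this.symm
      · have := congrFun hζ ⟨k - δ, by omega⟩
        have h9 : ψ (Y (δ + (k - δ))) = 0 := this
        rwa [show δ + (k - δ) = k by omega] at h9
    intro P hP
    have hP0 := (hmem P).mp hP
    have hspan : P ∈ Ideal.span (X '' (Set.univ : Set (Option (Fin (D + 1)))) : Set R) := by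
      rw [MvPolynomial.mem_ideal_span_X_image]
      intro d hd
      by_contra hcon
      push Not at hcon
      have hd0 : d = 0 := by
        ext i
        exact hcon i (Set.mem_univ i)
      rw [hd0, mem_support_iff] at hd
      apply hd
      rw [← constantCoeff_eq, ← hP0]
      simp [constantCoeff_eq]
    refine Ideal.span_le.mpr ?_ hspan
    rintro _ ⟨i, -, rfl⟩
    rcases i with _ | k
    · exact (hψ _).mp hs
    · have := hYJ k k.2
      have h9 : Y k = X (some k) := by
        show (if h : (k : ℕ) < D + 1 then X (some ⟨k, h⟩) else 0 : R) = _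
        rw [dif_pos k.2]
      rwa [h9] at this

end Pool.Agent.H84
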