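import Mathlib
import Pool.Agent.H84.SpecialSystem

/-!
# Two families of polynomials: `q ^ r g`, and `q ^ r l₁ l₂ ^ (r - 1)`
-/

set_option autoImplicit false

namespace Pool.Agent.H84

open MvPolynomial Pool.Agent.H6

section Nil

variable {S : Type} [CommRing S] [Algebra ℂ S] {μ : ℕ} {ζ : Fin μ → S}

/-- The ideal of `S[X]` generated by the `ζ i`. -/
noncomputable def nilI (ζ : Fin μ → S) : Ideal (Polynomial S) :=
  Ideal.span (Set.range fun i => Polynomial.C (ζ i))

omit [Algebra ℂ S] in
lemma nilI_mul (h : ∀ i j, ζ i * ζ j = 0) {u v : Polynomial S} (hu : u ∈ nilI ζ)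
    (hv : v ∈ nilI ζ) : u * v = 0 := by
  have h1 : nilI ζ * nilI ζ = ⊥ := by
    rw [nilI, Ideal.span_mul_span', Ideal.span_eq_bot]
    rintro _ ⟨_, ⟨i, rfl⟩, _, ⟨j, rfl⟩, rfl⟩
    simp only
    rw [← Polynomial.C_mul, h, Polynomial.C_0]
  have h2 := Ideal.mul_mem_mul hu hv
  rw [h1] at h2
  simpa using h2

omit [Algebra ℂ S] in
lemma C_mem_nilI (i : Fin μ) : Polynomial.C (ζ i) ∈ nilI ζ := Ideal.subset_span ⟨i, rfl⟩

omit [Algebra ℂ S] in
/-- The polynomial `∑ ζ (f i) X ^ i` belongs to the ideal. -/
lemma sum_mem_nilI {a : ℕ} (f : Fin a → Fin μ) :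
    (∑ i : Fin a, Polynomial.C (ζ (f i)) * Polynomial.X ^ (i : ℕ)) ∈ nilI ζ :=
  Ideal.sum_mem _ fun _ _ => Ideal.mul_mem_right _ _ (C_mem_nilI _)

lemma pow_add_nil {A : Type*} [CommRing A] {x e : A} (he : e * e = 0) (k : ℕ) :
    (x + e) ^ (k + 1) = x ^ (k + 1) + ((k : A) + 1) * x ^ k * e := by
  induction k with
  | zero => simp
  | succ k ih =>
    rw [pow_succ, ih]
    push_cast
    linear_combination (((k : A) + 1) * x ^ k) * he

omit [Algebra ℂ S] in
lemma coeff_sum_fin {a : ℕ} (c : Fin a → S) (i : Fin a) :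
    (∑ i : Fin a, Polynomial.C (c i) * Polynomial.X ^ (i : ℕ)).coeff i = c i := by
  rw [Polynomial.finsetSum_coeff, Finset.sum_eq_single i]
  · rw [Polynomial.coeff_C_mul_X_pow, if_pos rfl]
  · intro j _ hj
    rw [Polynomial.coeff_C_mul_X_pow, if_neg]
    intro h
    exact hj (Fin.ext h.symm)
  · intro h
    exact absurd (Finset.mem_univ _) h

omit [Algebra ℂ S] in
lemma coeff_sum_fin_of_le {a : ℕ} (c : Fin a → S) {i : ℕ} (hi : a ≤ i) :
    (∑ i : Fin a, Polynomial.C (c i) * Polynomial.X ^ (i : ℕ)).coeff i = 0 := by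
  rw [Polynomial.finsetSum_coeff]
  apply Finset.sum_eq_zero
  intro j _
  rw [Polynomial.coeff_C_mul_X_pow, if_neg]
  have := j.2
  omega

end Nil

/-- The polynomial `∑ c i X ^ i` of degree `< a`. -/
noncomputable def lowPoly {R : Type*} [CommRing R] {a : ℕ} (c : Fin a → R) : Polynomial R :=
  ∑ i : Fin a, Polynomial.C (c i) * Polynomial.X ^ (i : ℕ)

lemma map_lowPoly {R S : Type*} [CommRing R] [CommRing S] (φ : R →+* S) {a : ℕ} (c : Fin a → R) :
    (lowPoly c).map φ = lowPoly (fun i => φ (c i)) := by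
  unfold lowPoly
  rw [Polynomial.map_sum]
  simp

lemma natDegree_lowPoly {R : Type*} [CommRing R] {a : ℕ} (c : Fin a → R) :
    (lowPoly c).natDegree ≤ a - 1 := by
  unfold lowPoly
  refine Polynomial.natDegree_sum_le_of_forall_le _ _ fun i _ => ?_
  refine (Polynomial.natDegree_C_mul_X_pow_le _ _).trans ?_
  have := i.2
  omega

lemma lowPoly_zero {R : Type*} [CommRing R] {a : ℕ} : lowPoly (fun _ : Fin a => (0 : R)) = 0 := by
  unfold lowPoly
  simp

/-- A natural number `k ≠ 0` is a unit in a `ℂ`-algebra. -/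
lemma eq_zero_of_nat_mul {S : Type*} [CommRing S] [Algebra ℂ S] {k : ℕ} (hk : k ≠ 0) {x : S}
    (h : (k : S) * x = 0) : x = 0 := by
  have h1 : (algebraMap ℂ S ((k : ℂ)⁻¹)) * ((k : S) * x) = x := by
    rw [← map_natCast (algebraMap ℂ S) k, ← mul_assoc, ← map_mul,
      inv_mul_cancel₀ (Nat.cast_ne_zero.mpr hk), map_one, one_mul]
  rw [← h1, h, mul_zero]

/-- The family `q ^ r g`, `q` monic of degree `a`, `g` of degree at most `b`. -/
noncomputable def familyB (r a b : ℕ) : Polynomial (MvPolynomial (Fin (a + (b + 1))) ℂ) :=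
  (Polynomial.X ^ a + lowPoly (fun i : Fin a => X (Fin.castAdd (b + 1) i))) ^ r *
    (1 + lowPoly (fun i : Fin (b + 1) => X (Fin.natAdd a i)))

lemma map_familyB {r a b : ℕ} {S : Type*} [CommRing S]
    (φ : MvPolynomial (Fin (a + (b + 1))) ℂ →+* S) :
    (familyB r a b).map φ =
      (Polynomial.X ^ a + lowPoly (fun i : Fin a => φ (X (Fin.castAdd (b + 1) i)))) ^ r *
        (1 + lowPoly (fun i : Fin (b + 1) => φ (X (Fin.natAdd a i)))) := by
  unfold familyB
  rw [Polynomial.map_mul, Polynomial.map_pow, Polynomial.map_add, Polynomial.map_add,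
    map_lowPoly, map_lowPoly]
  simp

lemma natDegree_lead {R : Type*} [CommRing R] {a : ℕ} (c : Fin a → R) :
    (Polynomial.X ^ a + lowPoly c).natDegree ≤ a := by
  refine (Polynomial.natDegree_add_le _ _).trans (max_le (Polynomial.natDegree_X_pow_le _) ?_)
  exact (natDegree_lowPoly c).trans (Nat.sub_le _ _)

lemma natDegree_familyB (r a b : ℕ) : (familyB r a b).natDegree ≤ r * a + b := by
  unfold familyB
  refine Polynomial.natDegree_mul_le.trans (Nat.add_le_add ?_ ?_)
  · exact Polynomial.natDegree_pow_le.trans (Nat.mul_le_mul_left _ (natDegree_lead _))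
  · refine (Polynomial.natDegree_add_le _ _).trans (max_le (by simp) ?_)
    exact (natDegree_lowPoly _).trans (by omega)

/-- For every form `F` of degree `r a + b` in `n + 2` variables with `(r - 1) a ≤ 2 n`, and for
all but countably many `c`, there is a line on which `(1 - c) F_0 + c F` has the form
`q ^ r g`. -/
theorem countable_familyB {n r a b : ℕ} (hr : 1 ≤ r) (hn : (r - 1) * a ≤ 2 * n)
    (F : MvPolynomial (Fin (n + 2)) ℂ) (hF : F.totalDegree ≤ r * a + b) :
    Set.Countable {c : ℂ | ¬ ∃ (ξ η : Fin n → ℂ) (q g : Polynomial ℂ),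
      q.natDegree ≤ a ∧ q ≠ 0 ∧ g.natDegree ≤ b ∧
      (1 - c) • onLine (fx ξ) (fv η)
        (specialForm n (r * a + b) ((r - 1) * a) (Polynomial.X ^ (r * a))) +
        c • onLine (fx ξ) (fv η) F = q ^ r * g} := by
  obtain ⟨k, rfl⟩ : ∃ k, r = k + 1 := ⟨r - 1, by omega⟩
  rw [Nat.add_sub_cancel] at hn ⊢
  have hsys := exists_line_family (n := n) (D := (k + 1) * a + b) (δ := k * a)
    (μ := a + (b + 1)) hn (by ring) (by omega) (familyB (k + 1) a b)
    (Polynomial.X ^ ((k + 1) * a)) (Polynomial.X ^ (k * a))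
    (natDegree_familyB _ _ _) (by
      rw [map_familyB]
      simp only [eval_X, Pi.zero_apply]
      rw [lowPoly_zero, lowPoly_zero, add_zero, add_zero, mul_one, ← pow_mul, mul_comm a])
    (Polynomial.monic_X_pow _) (Polynomial.natDegree_X_pow _) ?_ F hF
  · refine hsys.mono ?_
    intro c hc hcon
    apply hc
    obtain ⟨ξ, η, ζ, h⟩ := hcon
    refine ⟨ξ, η, _, _, natDegree_lead _, ?_, ?_, h.trans (map_familyB _)⟩
    · intro h0
      have h1 := congrArg (fun p => Polynomial.coeff p a) h0
      simp only [Polynomial.coeff_add, Polynomial.coeff_X_pow, if_true,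
        Polynomial.coeff_zero] at h1
      have h2 : (lowPoly (fun i : Fin a => eval ζ (X (Fin.castAdd (b + 1) i)))).coeff a = 0 :=
        coeff_sum_fin_of_le _ le_rfl
      rw [h2] at h1
      simp at h1
    · refine (Polynomial.natDegree_add_le _ _).trans (max_le (by simp) ?_)
      exact (natDegree_lowPoly _).trans (by omega)
  · intro S _ _ ζ hζ
    set e : Polynomial S := lowPoly (fun i : Fin a => ζ (Fin.castAdd (b + 1) i)) with he
    set f : Polynomial S := lowPoly (fun i : Fin (b + 1) => ζ (Fin.natAdd a i)) with hf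
    have heI : e ∈ nilI ζ := sum_mem_nilI _
    have hfI : f ∈ nilI ζ := sum_mem_nilI _
    refine ⟨((k : Polynomial S) + 1) * e + Polynomial.X ^ a * f, ?_, ?_⟩
    · rw [map_familyB]
      have h1 : (fun i : Fin a => (aeval ζ : MvPolynomial (Fin (a + (b + 1))) ℂ →ₐ[ℂ] S).toRingHom
          (X (Fin.castAdd (b + 1) i))) = fun i : Fin a => ζ (Fin.castAdd (b + 1) i) := by
        funext i
        simp
      have h2 : (fun i : Fin (b + 1) =>
          (aeval ζ : MvPolynomial (Fin (a + (b + 1))) ℂ →ₐ[ℂ] S).toRingHom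
          (X (Fin.natAdd a i))) = fun i : Fin (b + 1) => ζ (Fin.natAdd a i) := by
        funext i
        simp
      rw [h1, h2, ← he, ← hf, pow_add_nil (nilI_mul hζ heI heI), Polynomial.map_pow,
        Polynomial.map_pow, Polynomial.map_X]
      have h3 : e * f = 0 := nilI_mul hζ heI hfI
      have h4 : (Polynomial.X : Polynomial S) ^ ((k + 1) * a) =
          Polynomial.X ^ (k * a) * Polynomial.X ^ a := by
        rw [← pow_add]
        congr 1
        ring
      have h5 : ((Polynomial.X : Polynomial S) ^ a) ^ (k + 1) = Polynomial.X ^ ((k + 1) * a) := by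
        rw [← pow_mul, mul_comm]
      have h6 : ((Polynomial.X : Polynomial S) ^ a) ^ k = Polynomial.X ^ (k * a) := by
        rw [← pow_mul, mul_comm]
      rw [h5, h6]
      linear_combination ((k : Polynomial S) + 1) * Polynomial.X ^ (k * a) * h3 + f * h4
    · intro hw
      funext i
      refine Fin.addCases (fun i => ?_) (fun i => ?_) i
      · have h1 := congrArg (fun p => Polynomial.coeff p (i : ℕ)) hw
        simp only [Polynomial.coeff_add, Polynomial.coeff_zero] at h1
        rw [Polynomial.coeff_X_pow_mul', if_neg (by have := i.2; omega), add_zero] at h1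
        have h2 : ((k : Polynomial S) + 1) * e = Polynomial.C ((k + 1 : ℕ) : S) * e := by
          push_cast
          simp
        rw [h2, Polynomial.coeff_C_mul] at h1
        have h3 : e.coeff i = ζ (Fin.castAdd (b + 1) i) := coeff_sum_fin _ i
        rw [h3] at h1
        exact eq_zero_of_nat_mul (by omega) h1
      · have h1 := congrArg (fun p => Polynomial.coeff p ((i : ℕ) + a)) hw
        simp only [Polynomial.coeff_add, Polynomial.coeff_zero] at h1
        rw [Polynomial.coeff_X_pow_mul] at h1
        have h2 : ((k : Polynomial S) + 1) * e = Polynomial.C ((k + 1 : ℕ) : S) * e := by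
          push_cast
          simp
        have h4 : e.coeff ((i : ℕ) + a) = 0 := coeff_sum_fin_of_le _ (by omega)
        rw [h2, Polynomial.coeff_C_mul, h4, mul_zero, zero_add] at h1
        have h3 : f.coeff i = ζ (Fin.natAdd a i) := coeff_sum_fin _ i
        rw [h3] at h1
        exact h1

/-- The family `λ q ^ r l₁ l₂ ^ (r - 1)`, `r = s + 2`. -/
noncomputable def familyA (s a : ℕ) : Polynomial (MvPolynomial (Fin (a + 3)) ℂ) :=
  (Polynomial.X ^ a + lowPoly (fun i : Fin a =>
      (X (Fin.castAdd 3 i) : MvPolynomial (Fin (a + 3)) ℂ))) ^ (s + 2) *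
    ((1 + Polynomial.C (X (Fin.natAdd a (0 : Fin 3)) : MvPolynomial (Fin (a + 3)) ℂ)) *
    (1 + Polynomial.C (X (Fin.natAdd a (1 : Fin 3)) : MvPolynomial (Fin (a + 3)) ℂ) *
      Polynomial.X)) *
    (Polynomial.X - 1 + Polynomial.C (X (Fin.natAdd a (2 : Fin 3)) :
      MvPolynomial (Fin (a + 3)) ℂ)) ^ (s + 1)

lemma map_familyA {s a : ℕ} {S : Type*} [CommRing S]
    (φ : MvPolynomial (Fin (a + 3)) ℂ →+* S) :
    (familyA s a).map φ =
      (Polynomial.X ^ a + lowPoly (fun i : Fin a => φ (X (Fin.castAdd 3 i)))) ^ (s + 2) *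
    ((1 + Polynomial.C (φ (X (Fin.natAdd a (0 : Fin 3))))) *
    (1 + Polynomial.C (φ (X (Fin.natAdd a (1 : Fin 3)))) * Polynomial.X)) *
    (Polynomial.X - 1 + Polynomial.C (φ (X (Fin.natAdd a (2 : Fin 3))))) ^ (s + 1) := by
  unfold familyA
  simp only [Polynomial.map_mul, Polynomial.map_pow, Polynomial.map_add, Polynomial.map_sub,
    map_lowPoly, Polynomial.map_one, Polynomial.map_X, Polynomial.map_C]

lemma natDegree_familyA (s a : ℕ) : (familyA s a).natDegree ≤ (s + 2) * a + (s + 2) := by
  unfold familyA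
  have h1 : ((Polynomial.X ^ a + lowPoly (fun i : Fin a =>
      (X (Fin.castAdd 3 i) : MvPolynomial (Fin (a + 3)) ℂ))) ^ (s + 2) :
      Polynomial (MvPolynomial (Fin (a + 3)) ℂ)).natDegree ≤ (s + 2) * a :=
    Polynomial.natDegree_pow_le.trans (Nat.mul_le_mul_left _ (natDegree_lead _))
  have h2 : ((1 + Polynomial.C (X (Fin.natAdd a (0 : Fin 3)))) *
    (1 + Polynomial.C (X (Fin.natAdd a (1 : Fin 3))) * Polynomial.X) :
      Polynomial (MvPolynomial (Fin (a + 3)) ℂ)).natDegree ≤ 1 := by
    refine Polynomial.natDegree_mul_le.trans ?_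
    have h3 : (1 + Polynomial.C (X (Fin.natAdd a (0 : Fin 3))) :
      Polynomial (MvPolynomial (Fin (a + 3)) ℂ)).natDegree ≤ 0 := by
      refine (Polynomial.natDegree_add_le _ _).trans (max_le (by simp) (by simp))
    have h4 : (1 + Polynomial.C (X (Fin.natAdd a (1 : Fin 3))) * Polynomial.X :
      Polynomial (MvPolynomial (Fin (a + 3)) ℂ)).natDegree ≤ 1 := by
      refine (Polynomial.natDegree_add_le _ _).trans (max_le (by simp) ?_)
      exact (Polynomial.natDegree_C_mul_le _ _).trans Polynomial.natDegree_X_le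
    omega
  have h5 : ((Polynomial.X - 1 + Polynomial.C (X (Fin.natAdd a (2 : Fin 3)))) ^ (s + 1) :
      Polynomial (MvPolynomial (Fin (a + 3)) ℂ)).natDegree ≤ (s + 1) * 1 := by
    refine Polynomial.natDegree_pow_le.trans (Nat.mul_le_mul_left _ ?_)
    refine (Polynomial.natDegree_add_le _ _).trans (max_le ?_ (by simp))
    refine (Polynomial.natDegree_sub_le _ _).trans (max_le Polynomial.natDegree_X_le (by simp))
  refine Polynomial.natDegree_mul_le.trans ?_
  have h6 := Polynomial.natDegree_mul_le.trans (Nat.add_le_add h1 h2)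
  omega

/-- For every form `F` of degree `r (a + 1)` in `n + 2` variables with
`(r - 1) (a + 1) ≤ 2 n + 1`, `r = s + 2`, and for all but countably many `c`, there is a line on
which `(1 - c) F_0 + c F` has the form `q ^ r l₁ l₂ ^ (r - 1)`. -/
theorem countable_familyA {n s a : ℕ} (hn : (s + 1) * a + s ≤ 2 * n)
    (F : MvPolynomial (Fin (n + 2)) ℂ) (hF : F.totalDegree ≤ (s + 2) * a + (s + 2)) :
    Set.Countable {c : ℂ | ¬ ∃ (ξ η : Fin n → ℂ) (q l₁ l₂ : Polynomial ℂ),
      q.natDegree ≤ a ∧ q ≠ 0 ∧ l₁.natDegree ≤ 1 ∧ l₂.natDegree ≤ 1 ∧ l₂ ≠ 0 ∧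
      (1 - c) • onLine (fx ξ) (fv η)
        (specialForm n ((s + 2) * a + (s + 2)) ((s + 1) * a + s)
          (Polynomial.X ^ ((s + 2) * a) * (Polynomial.X - 1) ^ (s + 1))) +
        c • onLine (fx ξ) (fv η) F = q ^ (s + 2) * l₁ * l₂ ^ (s + 1)} := by
  have hmonic : (Polynomial.X - 1 : Polynomial ℂ).Monic := by
    rw [← Polynomial.C_1]; exact Polynomial.monic_X_sub_C 1
  have hdeg1 : (Polynomial.X - 1 : Polynomial ℂ).natDegree = 1 := by
    rw [← Polynomial.C_1]; exact Polynomial.natDegree_X_sub_C 1
  have hsys := exists_line_family (n := n) (D := (s + 2) * a + (s + 2)) (δ := (s + 1) * a + s)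
    (μ := a + 3) hn (by ring) (by omega) (familyA s a)
    (Polynomial.X ^ ((s + 2) * a) * (Polynomial.X - 1) ^ (s + 1))
    (Polynomial.X ^ ((s + 1) * a) * (Polynomial.X - 1) ^ s)
    (natDegree_familyA _ _) (by
      rw [map_familyA]
      simp only [eval_X, Pi.zero_apply]
      rw [lowPoly_zero, Polynomial.C_0, add_zero, ← pow_mul, mul_comm a]
      ring)
    ((Polynomial.monic_X_pow _).mul (hmonic.pow _)) (by
      rw [Polynomial.Monic.natDegree_mul (Polynomial.monic_X_pow _) (hmonic.pow _),
        Polynomial.natDegree_X_pow, hmonic.natDegree_pow, hdeg1, mul_one]) ?_ F hF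
  · refine hsys.mono ?_
    intro c hc hcon
    apply hc
    obtain ⟨ξ, η, ζ, h⟩ := hcon
    refine ⟨ξ, η, _, _, _, natDegree_lead _, ?_, ?_, ?_, ?_, h.trans (map_familyA _)⟩
    · intro h0
      have h1 := congrArg (fun p => Polynomial.coeff p a) h0
      simp only [Polynomial.coeff_add, Polynomial.coeff_X_pow, if_true,
        Polynomial.coeff_zero] at h1
      have h2 : (lowPoly (fun i : Fin a => eval ζ (X (Fin.castAdd 3 i)))).coeff a = 0 :=
        coeff_sum_fin_of_le _ le_rfl
      rw [h2] at h1
      simp at h1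
    · refine Polynomial.natDegree_mul_le.trans ?_
      have h3 : (1 + Polynomial.C (eval ζ (X (Fin.natAdd a (0 : Fin 3)))) : Polynomial ℂ).natDegree ≤ 0 := by
        refine (Polynomial.natDegree_add_le _ _).trans (max_le (by simp) (by simp))
      have h4 : (1 + Polynomial.C (eval ζ (X (Fin.natAdd a (1 : Fin 3)))) * Polynomial.X :
          Polynomial ℂ).natDegree ≤ 1 := by
        refine (Polynomial.natDegree_add_le _ _).trans (max_le (by simp) ?_)
        exact (Polynomial.natDegree_C_mul_le _ _).trans Polynomial.natDegree_X_le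
      omega
    · refine (Polynomial.natDegree_add_le _ _).trans (max_le ?_ (by simp))
      exact hdeg1.le
    · intro h0
      have h1 := congrArg (fun p => Polynomial.coeff p 1) h0
      simp [Polynomial.coeff_X, Polynomial.coeff_one] at h1
  · intro S _ _ ζ hζ
    set e : Polynomial S := lowPoly (fun i : Fin a => ζ (Fin.castAdd 3 i)) with he
    set γ : Polynomial S := Polynomial.C (ζ (Fin.natAdd a (0 : Fin 3))) with hγ
    set α : Polynomial S := Polynomial.C (ζ (Fin.natAdd a (1 : Fin 3))) with hα
    set β : Polynomial S := Polynomial.C (ζ (Fin.natAdd a (2 : Fin 3))) with hβ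
    have heI : e ∈ nilI ζ := sum_mem_nilI _
    have hγI : γ ∈ nilI ζ := C_mem_nilI _
    have hαI : α ∈ nilI ζ := C_mem_nilI _
    have hβI : β ∈ nilI ζ := C_mem_nilI _
    set T : Polynomial S := Polynomial.X - 1 with hT
    refine ⟨γ * Polynomial.X ^ a * T + ((s : Polynomial S) + 2) * e * T +
      α * Polynomial.X ^ (a + 1) * T + ((s : Polynomial S) + 1) * β * Polynomial.X ^ a, ?_, ?_⟩
    · rw [map_familyA]
      have h1 : (fun i : Fin a => (aeval ζ : MvPolynomial (Fin (a + 3)) ℂ →ₐ[ℂ] S).toRingHom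
          (X (Fin.castAdd 3 i))) = fun i : Fin a => ζ (Fin.castAdd 3 i) := by
        funext i
        simp
      have h2 : ∀ i, (aeval ζ : MvPolynomial (Fin (a + 3)) ℂ →ₐ[ℂ] S).toRingHom (X i) = ζ i := by
        intro i
        simp
      rw [h1, h2, h2, h2, ← he, ← hγ, ← hα, ← hβ, ← hT, pow_add_nil (nilI_mul hζ heI heI),
        pow_add_nil (nilI_mul hζ hβI hβI)]
      simp only [Polynomial.map_mul, Polynomial.map_pow, Polynomial.map_X, Polynomial.map_sub,
        Polynomial.map_one]
      rw [← hT]
      have e1 : e * γ = 0 := nilI_mul hζ heI hγI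
      have e2 : e * α = 0 := nilI_mul hζ heI hαI
      have e3 : e * β = 0 := nilI_mul hζ heI hβI
      have e4 : γ * α = 0 := nilI_mul hζ hγI hαI
      have e5 : γ * β = 0 := nilI_mul hζ hγI hβI
      have e6 : α * β = 0 := nilI_mul hζ hαI hβI
      have h5 : ((Polynomial.X : Polynomial S) ^ a) ^ (s + 1 + 1) =
          Polynomial.X ^ ((s + 1) * a) * Polynomial.X ^ a := by
        rw [← pow_mul, ← pow_add]
        congr 1
        ring
      have h6 : ((Polynomial.X : Polynomial S) ^ a) ^ (s + 1) = Polynomial.X ^ ((s + 1) * a) := by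
        rw [← pow_mul, mul_comm]
      have h7 : (Polynomial.X : Polynomial S) ^ ((s + 2) * a) =
          Polynomial.X ^ ((s + 1) * a) * Polynomial.X ^ a := by
        rw [← pow_add]
        congr 1
        ring
      rw [h5, h6, h7, pow_succ T s, pow_succ Polynomial.X a]
      push_cast
      set A := (Polynomial.X : Polynomial S) ^ ((s + 1) * a)
      set B := (Polynomial.X : Polynomial S) ^ a
      set U := T ^ s
      set x := (Polynomial.X : Polynomial S)
      set σ := (s : Polynomial S)
      have e7 : (1 + γ) * (1 + α * x) = 1 + γ + α * x := by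
        linear_combination x * e4
      rw [e7]
      have e8 : (A * B + (σ + 1 + 1) * A * e) * (1 + γ + α * x) =
          A * B + (σ + 1 + 1) * A * e + A * B * γ + A * B * α * x := by
        linear_combination (σ + 1 + 1) * A * e1 + (σ + 1 + 1) * A * x * e2
      rw [e8]
      linear_combination ((σ + 1 + 1) * A * (σ + 1) * U) * e3 + (A * B * (σ + 1) * U) * e5 +
        (A * B * x * (σ + 1) * U) * e6
    · intro hw
      have hβ0 : ζ (Fin.natAdd a (2 : Fin 3)) = 0 := by
        have h1 := congrArg (fun p => Polynomial.eval 1 p) hw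
        simp only [Polynomial.eval_add, Polynomial.eval_mul, Polynomial.eval_pow,
          Polynomial.eval_X, Polynomial.eval_zero, hT, hβ, Polynomial.eval_sub,
          Polynomial.eval_one, sub_self, mul_zero, zero_add, one_pow, mul_one,
          Polynomial.eval_C, Polynomial.eval_natCast] at h1
        have h2 : ((s + 1 : ℕ) : S) * ζ (Fin.natAdd a (2 : Fin 3)) = 0 := by
          push_cast
          exact h1
        exact eq_zero_of_nat_mul (by omega) h2
      have hβ1 : β = 0 := by rw [hβ, hβ0, Polynomial.C_0]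
      have hmonicS : T.Monic := by
        rw [hT, ← Polynomial.C_1]; exact Polynomial.monic_X_sub_C 1
      have h3 : (γ * Polynomial.X ^ a + ((s : Polynomial S) + 2) * e +
          α * Polynomial.X ^ (a + 1)) * T = 0 := by
        rw [hβ1] at hw
        linear_combination hw
      have h4 : γ * Polynomial.X ^ a + ((s : Polynomial S) + 2) * e +
          α * Polynomial.X ^ (a + 1) = 0 := by
        by_contra hne
        have h5 := hmonicS.mul_left_ne_zero hne
        exact h5 h3
      have hcast : ((s : Polynomial S) + 2) * e = Polynomial.C ((s + 2 : ℕ) : S) * e := by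
        have h5 : Polynomial.C ((s + 2 : ℕ) : S) = (s : Polynomial S) + 2 := by
          rw [map_natCast]
          push_cast
          ring
        rw [h5]
      rw [hcast] at h4
      funext i
      refine Fin.addCases (fun i => ?_) (fun i => ?_) i
      · have h1 := congrArg (fun p => Polynomial.coeff p (i : ℕ)) h4
        have hi := i.2
        simp only [Polynomial.coeff_add, Polynomial.coeff_zero] at h1
        rw [hγ, hα, Polynomial.coeff_C_mul_X_pow, Polynomial.coeff_C_mul_X_pow,
          if_neg (by omega), if_neg (by omega), Polynomial.coeff_C_mul, zero_add, add_zero] at h1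
        have h3 : e.coeff i = ζ (Fin.castAdd 3 i) := coeff_sum_fin _ i
        rw [h3] at h1
        exact eq_zero_of_nat_mul (by omega) h1
      · have hea : ∀ i, a ≤ i → e.coeff i = 0 := fun i hi => coeff_sum_fin_of_le _ hi
        fin_cases i
        · have h1 := congrArg (fun p => Polynomial.coeff p a) h4
          simp only [Polynomial.coeff_add, Polynomial.coeff_zero] at h1
          rw [hγ, hα, Polynomial.coeff_C_mul_X_pow, Polynomial.coeff_C_mul_X_pow,
            if_pos rfl, if_neg (by omega), Polynomial.coeff_C_mul, hea a le_rfl, mul_zero,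
            add_zero, add_zero] at h1
          exact h1
        · have h1 := congrArg (fun p => Polynomial.coeff p (a + 1)) h4
          simp only [Polynomial.coeff_add, Polynomial.coeff_zero] at h1
          rw [hγ, hα, Polynomial.coeff_C_mul_X_pow, Polynomial.coeff_C_mul_X_pow,
            if_neg (by omega), if_pos rfl, Polynomial.coeff_C_mul, hea (a + 1) (by omega),
            mul_zero, zero_add, zero_add] at h1
          exact h1
        · exact hβ0

end Pool.Agent.H84
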