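import Mathlib
import Pool.Agent.H84.Families

/-!
# Limits of lines on which a form is a product `q ^ r g₁ g₂ ^ k`
-/

set_option autoImplicit false

namespace Pool.Agent.H84

open MvPolynomial Pool.Agent.H6 Matrix

/-- The value at `(s, t)` of the binary form `∑ q_i s^i t^(d-i)`. -/
def bform {d : ℕ} (q : Fin (d + 1) → ℂ) (s t : ℂ) : ℂ :=
  ∑ i : Fin (d + 1), q i * s ^ (i : ℕ) * t ^ (d - (i : ℕ))

/-- The value at `(s, t)` of the homogenization of degree `d` of the polynomial `Q`. -/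
noncomputable def hform (d : ℕ) (Q : Polynomial ℂ) (s t : ℂ) : ℂ :=
  ∑ i ∈ Finset.range (d + 1), Q.coeff i * s ^ i * t ^ (d - i)

lemma bform_coeff {d : ℕ} (Q : Polynomial ℂ) (s t : ℂ) :
    bform (fun i : Fin (d + 1) => Q.coeff i) s t = hform d Q s t :=
  Fin.sum_univ_eq_sum_range (fun i => Q.coeff i * s ^ i * t ^ (d - i)) (d + 1)

lemma hform_of_ne {d : ℕ} {Q : Polynomial ℂ} (hQ : Q.natDegree ≤ d) {s t : ℂ} (ht : t ≠ 0) :
    hform d Q s t = t ^ d * Q.eval (s / t) := by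
  unfold hform
  rw [Polynomial.eval_eq_sum_range' (n := d + 1) (by omega), Finset.mul_sum]
  apply Finset.sum_congr rfl
  intro i hi
  have hi' : i ≤ d := Nat.lt_succ_iff.mp (Finset.mem_range.mp hi)
  have h1 : t ^ d = t ^ (d - i) * t ^ i := by
    rw [← pow_add]
    congr 1
    omega
  rw [h1, div_pow]
  field_simp

lemma hform_one {d : ℕ} {Q : Polynomial ℂ} (hQ : Q.natDegree ≤ d) (s : ℂ) :
    hform d Q s 1 = Q.eval s := by
  rw [hform_of_ne hQ one_ne_zero, one_pow, one_mul, div_one]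

lemma continuous_hform (d : ℕ) (Q : Polynomial ℂ) (s : ℂ) : Continuous fun t => hform d Q s t := by
  unfold hform
  fun_prop

lemma eq_of_ne {f g : ℂ → ℂ} (hf : Continuous f) (hg : Continuous g)
    (h : ∀ t, t ≠ 0 → f t = g t) (t : ℂ) : f t = g t := by
  have h1 : f = g := by
    apply Continuous.ext_on (dense_compl_singleton (0 : ℂ)) hf hg
    intro t ht
    exact h t ht
  exact congrFun h1 t

lemma hform_mul {d₁ d₂ : ℕ} {Q₁ Q₂ : Polynomial ℂ} (h₁ : Q₁.natDegree ≤ d₁)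
    (h₂ : Q₂.natDegree ≤ d₂) (s t : ℂ) :
    hform (d₁ + d₂) (Q₁ * Q₂) s t = hform d₁ Q₁ s t * hform d₂ Q₂ s t := by
  refine eq_of_ne (f := fun t => hform (d₁ + d₂) (Q₁ * Q₂) s t)
    (g := fun t => hform d₁ Q₁ s t * hform d₂ Q₂ s t) (continuous_hform _ _ _)
    ((continuous_hform _ _ _).mul (continuous_hform _ _ _)) ?_ t
  intro t ht
  rw [hform_of_ne (Polynomial.natDegree_mul_le.trans (Nat.add_le_add h₁ h₂)) ht,
    hform_of_ne h₁ ht, hform_of_ne h₂ ht, Polynomial.eval_mul, pow_add]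
  ring

lemma hform_pow {d : ℕ} {Q : Polynomial ℂ} (h : Q.natDegree ≤ d) (k : ℕ) (s t : ℂ) :
    hform (k * d) (Q ^ k) s t = hform d Q s t ^ k := by
  refine eq_of_ne (f := fun t => hform (k * d) (Q ^ k) s t)
    (g := fun t => hform d Q s t ^ k) (continuous_hform _ _ _)
    ((continuous_hform _ _ _).pow k) ?_ t
  intro t ht
  rw [hform_of_ne (Polynomial.natDegree_pow_le.trans (Nat.mul_le_mul_left _ h)) ht,
    hform_of_ne h ht, Polynomial.eval_pow, mul_pow, ← pow_mul, mul_comm k d]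

/-- Linear substitution in a binary form. -/
lemma exists_subst (d : ℕ) (Q : Polynomial ℂ) (α β γ δ : ℂ) :
    ∃ Q' : Polynomial ℂ, Q'.natDegree ≤ d ∧
      ∀ s t, hform d Q' s t = hform d Q (α * s + β * t) (γ * s + δ * t) := by
  set Q' : Polynomial ℂ := ∑ i ∈ Finset.range (d + 1), Polynomial.C (Q.coeff i) *
    ((Polynomial.C α * Polynomial.X + Polynomial.C β) ^ i *
      (Polynomial.C γ * Polynomial.X + Polynomial.C δ) ^ (d - i)) with hQ'
  have hlin : ∀ u v : ℂ, (Polynomial.C u * Polynomial.X + Polynomial.C v).natDegree ≤ 1 :=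
    fun u v => Polynomial.natDegree_linear_le
  have hdeg : Q'.natDegree ≤ d := by
    apply Polynomial.natDegree_sum_le_of_forall_le
    intro i hi
    have hi' : i ≤ d := Nat.lt_succ_iff.mp (Finset.mem_range.mp hi)
    refine (Polynomial.natDegree_C_mul_le _ _).trans ?_
    refine Polynomial.natDegree_mul_le.trans ?_
    have h1 := (Polynomial.natDegree_pow_le (p := Polynomial.C α * Polynomial.X + Polynomial.C β)
      (n := i)).trans (Nat.mul_le_mul_left i (hlin α β))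
    have h2 := (Polynomial.natDegree_pow_le (p := Polynomial.C γ * Polynomial.X + Polynomial.C δ)
      (n := d - i)).trans (Nat.mul_le_mul_left (d - i) (hlin γ δ))
    omega
  refine ⟨Q', hdeg, fun s t => ?_⟩
  refine eq_of_ne (f := fun t => hform d Q' s t)
    (g := fun t => hform d Q (α * s + β * t) (γ * s + δ * t)) (continuous_hform _ _ _) ?_ ?_ t
  · unfold hform
    fun_prop
  · intro t ht
    rw [hform_of_ne hdeg ht, hQ', Polynomial.eval_finsetSum, Finset.mul_sum]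
    unfold hform
    apply Finset.sum_congr rfl
    intro i hi
    have hi' : i ≤ d := Nat.lt_succ_iff.mp (Finset.mem_range.mp hi)
    have h1 : t ^ d = t ^ i * t ^ (d - i) := by
      rw [← pow_add]
      congr 1
      omega
    simp only [Polynomial.eval_mul, Polynomial.eval_C, Polynomial.eval_pow, Polynomial.eval_add,
      Polynomial.eval_X]
    have h2 : α * s + β * t = t * (α * (s / t) + β) := by
      field_simp
    have h3 : γ * s + δ * t = t * (γ * (s / t) + δ) := by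
      field_simp
    rw [h1, h2, h3, mul_pow, mul_pow]
    ring

lemma eval_smul_of_homog {n D : ℕ} {G : MvPolynomial (Fin n) ℂ} (hG : G.IsHomogeneous D)
    (a : ℂ) (v : Fin n → ℂ) : eval (a • v) G = a ^ D * eval v G := by
  rw [eval_eq', eval_eq', Finset.mul_sum]
  apply Finset.sum_congr rfl
  intro d hd
  have hdeg : ∑ i, d i = D := by
    have := hG (mem_support_iff.mp hd)
    rw [← this, Finsupp.weight_apply, Finsupp.sum_fintype]
    · simp
    · simp
  have : ∏ i, (a • v) i ^ d i = a ^ D * ∏ i, v i ^ d i := by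
    simp only [Pi.smul_apply, smul_eq_mul, mul_pow]
    rw [Finset.prod_mul_distrib, Finset.prod_pow_eq_pow_sum, hdeg]
  rw [this]
  ring

/-- The restriction of a form to a line, in homogeneous coordinates. -/
lemma eval_line_homog {n D : ℕ} {G : MvPolynomial (Fin n) ℂ} (hG : G.IsHomogeneous D)
    (x v : Fin n → ℂ) (s t : ℂ) :
    eval (t • x + s • v) G = hform D (onLine x v G) s t := by
  refine eq_of_ne (f := fun t => eval (t • x + s • v) G)
    (g := fun t => hform D (onLine x v G) s t) ?_ (continuous_hform _ _ _) ?_ t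
  · have h1 : Continuous fun y : Fin n → ℂ => eval y G := MvPolynomial.continuous_eval G
    apply h1.comp
    fun_prop
  · intro t ht
    rw [hform_of_ne (natDegree_onLine x v G hG.totalDegree_le) ht, eval_onLine,
      ← eval_smul_of_homog hG]
    congr 1
    congr 1
    funext j
    simp only [Pi.add_apply, Pi.smul_apply, smul_eq_mul]
    field_simp

/-- Nonzero binary forms are nonzero functions, simultaneously. -/
lemma exists_ne_zero {d : ℕ} {q : Fin (d + 1) → ℂ} (hq : q ≠ 0) :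
    ∃ Q : Polynomial ℂ, Q ≠ 0 ∧ Q.natDegree ≤ d ∧ (∀ i : Fin (d + 1), Q.coeff i = q i) ∧
      ∀ s t, bform q s t = hform d Q s t := by
  refine ⟨lowPoly q, ?_, natDegree_lowPoly q, fun i => coeff_sum_fin q i, ?_⟩
  · intro h
    apply hq
    funext i
    rw [← coeff_sum_fin q i]
    show (lowPoly q).coeff i = 0
    rw [h, Polynomial.coeff_zero]
  · intro s t
    rw [← bform_coeff]
    congr 1
    funext i
    exact (coeff_sum_fin q i).symm

/-- Hermitian normalisation of a vector. -/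
lemma exists_normalize {n : ℕ} {u : Fin n → ℂ} (hu : u ≠ 0) :
    ∃ c : ℂ, c ≠ 0 ∧ star (c • u) ⬝ᵥ (c • u) = 1 := by
  have h1 : star u ⬝ᵥ u = ((∑ i, ‖u i‖ ^ 2 : ℝ) : ℂ) := by
    rw [dotProduct]
    push_cast
    apply Finset.sum_congr rfl
    intro i _
    rw [Pi.star_apply, Complex.star_def, mul_comm, Complex.mul_conj, Complex.normSq_eq_norm_sq]
    push_cast
    rfl
  have hpos : 0 < ∑ i, ‖u i‖ ^ 2 := by
    obtain ⟨j, hj⟩ : ∃ j, u j ≠ 0 := by
      by_contra h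
      push Not at h
      exact hu (funext h)
    apply Finset.sum_pos' (fun i _ => by positivity)
    exact ⟨j, Finset.mem_univ j, by positivity⟩
  set S := ∑ i, ‖u i‖ ^ 2 with hS
  refine ⟨((Real.sqrt S)⁻¹ : ℝ), ?_, ?_⟩
  · rw [Ne, Complex.ofReal_eq_zero, inv_eq_zero]
    exact (Real.sqrt_pos.mpr hpos).ne'
  · rw [star_smul, smul_dotProduct, dotProduct_smul, h1, smul_eq_mul, smul_eq_mul,
      Complex.star_def, Complex.conj_ofReal, ← Complex.ofReal_mul, ← Complex.ofReal_mul]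
    have h2 : (Real.sqrt S)⁻¹ * ((Real.sqrt S)⁻¹ * S) = 1 := by
      have h3 : Real.sqrt S ≠ 0 := (Real.sqrt_pos.mpr hpos).ne'
      have h4 : S = Real.sqrt S * Real.sqrt S := (Real.mul_self_sqrt hpos.le).symm
      field_simp
      rw [pow_two]
      exact h4
    rw [h2, Complex.ofReal_one]

lemma norm_le_one_of_unit {n : ℕ} {u : Fin n → ℂ} (hu : star u ⬝ᵥ u = 1) : ‖u‖ ≤ 1 := by
  have h1 : star u ⬝ᵥ u = ((∑ i, ‖u i‖ ^ 2 : ℝ) : ℂ) := by
    rw [dotProduct]
    push_cast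
    apply Finset.sum_congr rfl
    intro i _
    rw [Pi.star_apply, Complex.star_def, mul_comm, Complex.mul_conj, Complex.normSq_eq_norm_sq]
    push_cast
    rfl
  rw [h1] at hu
  have h2 : ∑ i, ‖u i‖ ^ 2 = 1 := by exact_mod_cast hu
  rw [pi_norm_le_iff_of_nonneg zero_le_one]
  intro i
  have h3 : ‖u i‖ ^ 2 ≤ ∑ i, ‖u i‖ ^ 2 :=
    Finset.single_le_sum (f := fun i => ‖u i‖ ^ 2) (fun i _ => by positivity) (Finset.mem_univ i)
  rw [h2] at h3
  have h4 := norm_nonneg (u i)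
  nlinarith

/-- The space of data for a line with a factorisation. -/
abbrev LineSpace (N a b₁ b₂ : ℕ) : Type :=
  (Fin N → ℂ) × (Fin N → ℂ) × (Fin (a + 1) → ℂ) × (Fin (b₁ + 1) → ℂ) × (Fin (b₂ + 1) → ℂ) ×
    (ℂ × ℂ)

/-- The compact set of normalised data. -/
def normalised (N a b₁ b₂ : ℕ) : Set (LineSpace N a b₁ b₂) :=
  {p | star p.1 ⬝ᵥ p.1 = 1 ∧ star p.2.1 ⬝ᵥ p.2.1 = 1 ∧ star p.1 ⬝ᵥ p.2.1 = 0 ∧
    ‖p.2.2.1‖ = 1 ∧ ‖p.2.2.2.1‖ = 1 ∧ ‖p.2.2.2.2.1‖ = 1 ∧ ‖p.2.2.2.2.2‖ = 1}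

lemma continuous_dot {X : Type*} [TopologicalSpace X] {n : ℕ} {f g : X → Fin n → ℂ}
    (hf : Continuous f) (hg : Continuous g) : Continuous fun x => star (f x) ⬝ᵥ g x := by
  unfold dotProduct
  apply continuous_finsetSum
  intro i _
  exact ((continuous_apply i).comp hf).star.mul ((continuous_apply i).comp hg)

lemma isCompact_normalised (N a b₁ b₂ : ℕ) : IsCompact (normalised N a b₁ b₂) := by
  apply Metric.isCompact_of_isClosed_isBounded
  · unfold normalised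
    refine IsClosed.inter (isClosed_eq (continuous_dot ?_ ?_) continuous_const) <|
      IsClosed.inter (isClosed_eq (continuous_dot ?_ ?_) continuous_const) <|
      IsClosed.inter (isClosed_eq (continuous_dot ?_ ?_) continuous_const) <|
      IsClosed.inter (isClosed_eq ?_ continuous_const) <|
      IsClosed.inter (isClosed_eq ?_ continuous_const) <|
      IsClosed.inter (isClosed_eq ?_ continuous_const) (isClosed_eq ?_ continuous_const)
    all_goals fun_prop
  · refine (Metric.isBounded_closedBall (x := (0 : LineSpace N a b₁ b₂)) (r := 1)).subset ?_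
    rintro ⟨u₁, u₂, q, g₁, g₂, z⟩ ⟨h1, h2, -, h4, h5, h6, h7⟩
    rw [Metric.mem_closedBall, dist_zero_right]
    simp only [Prod.norm_def, sup_le_iff] at *
    exact ⟨norm_le_one_of_unit h1, norm_le_one_of_unit h2, h4.le, h5.le, h6.le,
      (le_max_left _ _).trans h7.le, (le_max_right _ _).trans h7.le⟩

/-- There is a line on which `F` is proportional to a product `q ^ r g₁ g₂ ^ k`. -/
def Good {N : ℕ} (r a b₁ b₂ k : ℕ) (F : MvPolynomial (Fin N) ℂ) : Prop :=
  ∃ p ∈ normalised N a b₁ b₂, ∀ s t : ℂ, p.2.2.2.2.2.1 * eval (t • p.1 + s • p.2.1) F =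
    p.2.2.2.2.2.2 * (bform p.2.2.1 s t ^ r * bform p.2.2.2.1 s t * bform p.2.2.2.2.1 s t ^ k)

lemma continuous_bform {X : Type*} [TopologicalSpace X] {d : ℕ} {q : X → Fin (d + 1) → ℂ}
    (hq : Continuous q) (s t : ℂ) : Continuous fun x => bform (q x) s t := by
  unfold bform
  fun_prop

lemma isClosed_good {N : ℕ} (r a b₁ b₂ k : ℕ) (F₀ F₁ : MvPolynomial (Fin N) ℂ) :
    IsClosed {c : ℂ | Good r a b₁ b₂ k ((1 - c) • F₀ + c • F₁)} := by
  have : CompactSpace (normalised N a b₁ b₂) :=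
    isCompact_iff_compactSpace.mp (isCompact_normalised N a b₁ b₂)
  let T : Set (ℂ × normalised N a b₁ b₂) := {x | ∀ s t : ℂ,
    x.2.1.2.2.2.2.2.1 * ((1 - x.1) * eval (t • x.2.1.1 + s • x.2.1.2.1) F₀ +
      x.1 * eval (t • x.2.1.1 + s • x.2.1.2.1) F₁) =
    x.2.1.2.2.2.2.2.2 * (bform x.2.1.2.2.1 s t ^ r * bform x.2.1.2.2.2.1 s t *
      bform x.2.1.2.2.2.2.1 s t ^ k)}
  have hT : IsClosed T := by
    have : T = ⋂ s : ℂ, ⋂ t : ℂ, {x | x.2.1.2.2.2.2.2.1 *
      ((1 - x.1) * eval (t • x.2.1.1 + s • x.2.1.2.1) F₀ +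
      x.1 * eval (t • x.2.1.1 + s • x.2.1.2.1) F₁) =
      x.2.1.2.2.2.2.2.2 * (bform x.2.1.2.2.1 s t ^ r * bform x.2.1.2.2.2.1 s t *
      bform x.2.1.2.2.2.2.1 s t ^ k)} := by
      ext x
      simp [T]
    rw [this]
    refine isClosed_iInter fun s => isClosed_iInter fun t => isClosed_eq ?_ ?_
    · have h0 : Continuous fun y : Fin N → ℂ => eval y F₀ := MvPolynomial.continuous_eval F₀
      have h1 : Continuous fun y : Fin N → ℂ => eval y F₁ := MvPolynomial.continuous_eval F₁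
      have h2 : Continuous fun x : ℂ × normalised N a b₁ b₂ => t • x.2.1.1 + s • x.2.1.2.1 := by
        fun_prop
      have h3 := h0.comp h2
      have h4 := h1.comp h2
      simp only [Function.comp_def] at h3 h4
      fun_prop
    · have h1 : Continuous fun x : ℂ × normalised N a b₁ b₂ => bform x.2.1.2.2.1 s t :=
        continuous_bform (by fun_prop) s t
      have h2 : Continuous fun x : ℂ × normalised N a b₁ b₂ => bform x.2.1.2.2.2.1 s t :=
        continuous_bform (by fun_prop) s t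
      have h3 : Continuous fun x : ℂ × normalised N a b₁ b₂ => bform x.2.1.2.2.2.2.1 s t :=
        continuous_bform (by fun_prop) s t
      fun_prop
  have himg := isClosedMap_fst_of_compactSpace (X := ℂ) (Y := normalised N a b₁ b₂) T hT
  have heq : {c : ℂ | Good r a b₁ b₂ k ((1 - c) • F₀ + c • F₁)} = Prod.fst '' T := by
    ext c
    constructor
    · rintro ⟨p, hp, h⟩
      refine ⟨(c, ⟨p, hp⟩), ?_, rfl⟩
      intro s t
      have := h s t
      rw [map_add, smul_eval, smul_eval] at this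
      exact this
    · rintro ⟨⟨c', p⟩, h, rfl⟩
      refine ⟨p.1, p.2, ?_⟩
      intro s t
      have := h s t
      rw [map_add, smul_eval, smul_eval]
      exact this
  rw [heq]
  exact himg

/-- Every vector is a multiple of a unit vector. -/
lemma exists_unit {d : ℕ} (q : Fin (d + 1) → ℂ) :
    ∃ (u : Fin (d + 1) → ℂ) (ν : ℂ), ‖u‖ = 1 ∧ q = ν • u := by
  by_cases hq : q = 0
  · refine ⟨fun _ => 1, 0, ?_, ?_⟩
    · rw [pi_norm_const]
      simp
    · rw [hq, zero_smul]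
  · refine ⟨((‖q‖⁻¹ : ℝ) : ℂ) • q, (‖q‖ : ℂ), ?_, ?_⟩
    · rw [norm_smul, Complex.norm_real, norm_inv, norm_norm, inv_mul_cancel₀]
      exact norm_ne_zero_iff.mpr hq
    · rw [smul_smul, ← Complex.ofReal_mul, mul_inv_cancel₀ (norm_ne_zero_iff.mpr hq),
        Complex.ofReal_one, one_smul]

lemma bform_smul {d : ℕ} (ν : ℂ) (q : Fin (d + 1) → ℂ) (s t : ℂ) :
    bform (ν • q) s t = ν * bform q s t := by
  unfold bform
  rw [Finset.mul_sum]
  apply Finset.sum_congr rfl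
  intro i _
  rw [Pi.smul_apply, smul_eq_mul]
  ring

/-- A line with a factorisation gives a normalised one. -/
lemma good_of_line {N r a b₁ b₂ k : ℕ} {F : MvPolynomial (Fin N) ℂ}
    (hF : F.IsHomogeneous (r * a + b₁ + k * b₂)) (x v : Fin N → ℂ)
    (hind : ∀ α β : ℂ, α • x + β • v = 0 → α = 0 ∧ β = 0) (q g₁ g₂ : Polynomial ℂ)
    (hq : q.natDegree ≤ a) (hg₁ : g₁.natDegree ≤ b₁) (hg₂ : g₂.natDegree ≤ b₂)
    (h : onLine x v F = q ^ r * g₁ * g₂ ^ k) : Good r a b₁ b₂ k F := by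
  have hx : x ≠ 0 := by
    rintro rfl
    have := (hind 1 0 (by simp)).1
    exact one_ne_zero this
  obtain ⟨α, hα, hu₁⟩ := exists_normalize hx
  set u₁ := α • x with hu₁def
  set w := v - (star u₁ ⬝ᵥ v) • u₁ with hw
  have hw0 : w ≠ 0 := by
    intro hw0
    have h1 : (-((star u₁ ⬝ᵥ v) * α)) • x + (1 : ℂ) • v = 0 := by
      rw [← hw0, hw, hu₁def, smul_smul, neg_smul, one_smul]
      abel
    exact one_ne_zero (hind _ _ h1).2
  obtain ⟨γ, hγ, hu₂⟩ := exists_normalize hw0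
  set u₂ := γ • w with hu₂def
  have horth : star u₁ ⬝ᵥ u₂ = 0 := by
    rw [hu₂def, dotProduct_smul, hw, dotProduct_sub, dotProduct_smul, hu₁, smul_eq_mul,
      smul_eq_mul, mul_one, sub_self, mul_zero]
  -- the homogeneous identity
  have hid : ∀ s t : ℂ, eval (t • x + s • v) F =
      hform a q s t ^ r * hform b₁ g₁ s t * hform b₂ g₂ s t ^ k := by
    intro s t
    rw [eval_line_homog hF, h, hform_mul _ _, hform_mul _ _, hform_pow hq, hform_pow hg₂]
    · exact Polynomial.natDegree_pow_le.trans (Nat.mul_le_mul_left _ hq)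
    · exact hg₁
    · exact Polynomial.natDegree_mul_le.trans (Nat.add_le_add
        (Polynomial.natDegree_pow_le.trans (Nat.mul_le_mul_left _ hq)) hg₁)
    · exact Polynomial.natDegree_pow_le.trans (Nat.mul_le_mul_left _ hg₂)
  set β := -(γ * ((star u₁ ⬝ᵥ v) * α)) with hβ
  have hu₂' : u₂ = β • x + γ • v := by
    rw [hu₂def, hw, hu₁def, smul_sub, smul_smul, smul_smul, hβ, neg_smul, mul_assoc]
    abel
  have hframe : ∀ s t : ℂ, t • u₁ + s • u₂ = (β * s + α * t) • x + (γ * s + 0 * t) • v := by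
    intro s t
    rw [hu₂', hu₁def]
    module
  obtain ⟨q', hq', hq's⟩ := exists_subst a q γ 0 β α
  obtain ⟨g₁', hg₁', hg₁'s⟩ := exists_subst b₁ g₁ γ 0 β α
  obtain ⟨g₂', hg₂', hg₂'s⟩ := exists_subst b₂ g₂ γ 0 β α
  obtain ⟨Q, ν, hQ, hQν⟩ := exists_unit (fun i : Fin (a + 1) => q'.coeff i)
  obtain ⟨G₁, ν₁, hG₁, hG₁ν⟩ := exists_unit (fun i : Fin (b₁ + 1) => g₁'.coeff i)
  obtain ⟨G₂, ν₂, hG₂, hG₂ν⟩ := exists_unit (fun i : Fin (b₂ + 1) => g₂'.coeff i)
  set κ : ℂ := ν ^ r * ν₁ * ν₂ ^ k with hκ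
  have hval : ∀ s t : ℂ, eval (t • u₁ + s • u₂) F =
      κ * (bform Q s t ^ r * bform G₁ s t * bform G₂ s t ^ k) := by
    intro s t
    rw [hframe, hid, ← hq's, ← hg₁'s, ← hg₂'s, ← bform_coeff, ← bform_coeff, ← bform_coeff,
      hQν, hG₁ν, hG₂ν, bform_smul, bform_smul, bform_smul, hκ]
    ring
  have hn : ‖((1 : ℂ), κ)‖ ≠ 0 := by
    rw [Ne, norm_eq_zero, Prod.mk_eq_zero]
    rintro ⟨h1, -⟩
    exact one_ne_zero h1
  refine ⟨(u₁, u₂, Q, G₁, G₂, ((‖((1 : ℂ), κ)‖⁻¹ : ℝ) : ℂ) • ((1 : ℂ), κ)),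
    ⟨hu₁, hu₂, horth, hQ, hG₁, hG₂, ?_⟩, ?_⟩
  · show ‖((‖((1 : ℂ), κ)‖⁻¹ : ℝ) : ℂ) • ((1 : ℂ), κ)‖ = 1
    rw [norm_smul, Complex.norm_real, norm_inv, norm_norm, inv_mul_cancel₀ hn]
  · intro s t
    simp only [Prod.smul_mk, smul_eq_mul, mul_one]
    rw [hval]
    ring

/-- What a normalised line gives. -/
lemma line_of_good {N r a b₁ b₂ k : ℕ} {F : MvPolynomial (Fin N) ℂ} (h : Good r a b₁ b₂ k F) :
    ∃ (x v : Fin N → ℂ) (q g₁ g₂ : Polynomial ℂ) (ν : ℂ),
      (∀ α β : ℂ, α • x + β • v = 0 → α = 0 ∧ β = 0) ∧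
      q ≠ 0 ∧ g₁ ≠ 0 ∧ g₂ ≠ 0 ∧ q.natDegree ≤ a ∧ g₁.natDegree ≤ b₁ ∧ g₂.natDegree ≤ b₂ ∧
      ∀ s t : ℂ, eval (t • x + s • v) F =
        ν * (hform a q s t ^ r * hform b₁ g₁ s t * hform b₂ g₂ s t ^ k) := by
  obtain ⟨⟨x, v, q, g₁, g₂, l, ν⟩, ⟨h1, h2, h3, h4, h5, h6, h7⟩, h⟩ := h
  simp only at h1 h2 h3 h4 h5 h6 h7 h
  have hne : ∀ {d : ℕ} {q : Fin (d + 1) → ℂ}, ‖q‖ = 1 → q ≠ 0 := by
    rintro d q hq rfl
    rw [norm_zero] at hq
    exact zero_ne_one hq
  obtain ⟨Q, hQ0, hQd, -, hQ⟩ := exists_ne_zero (hne h4)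
  obtain ⟨G₁, hG₁0, hG₁d, -, hG₁⟩ := exists_ne_zero (hne h5)
  obtain ⟨G₂, hG₂0, hG₂d, -, hG₂⟩ := exists_ne_zero (hne h6)
  have hl : l ≠ 0 := by
    rintro rfl
    have hν : ν ≠ 0 := by
      rintro rfl
      rw [Prod.norm_def] at h7
      simp at h7
    have h8 : Q ^ r * G₁ * G₂ ^ k ≠ 0 :=
      mul_ne_zero (mul_ne_zero (pow_ne_zero _ hQ0) hG₁0) (pow_ne_zero _ hG₂0)
    apply h8
    apply Polynomial.funext
    intro s
    have h9 := h s 1
    rw [zero_mul, hQ, hG₁, hG₂, hform_one hQd, hform_one hG₁d, hform_one hG₂d] at h9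
    rcases mul_eq_zero.mp h9.symm with h10 | h10
    · exact absurd h10 hν
    · simpa using h10
  refine ⟨x, v, Q, G₁, G₂, l⁻¹ * ν, ?_, hQ0, hG₁0, hG₂0, hQd, hG₁d, hG₂d, ?_⟩
  · intro α β hαβ
    have h3' : star v ⬝ᵥ x = 0 := by
      rw [star_dotProduct, h3, star_zero]
    have h8 : star x ⬝ᵥ (α • x + β • v) = 0 := by rw [hαβ, dotProduct_zero]
    have h9 : star v ⬝ᵥ (α • x + β • v) = 0 := by rw [hαβ, dotProduct_zero]
    rw [dotProduct_add, dotProduct_smul, dotProduct_smul, h1, h3] at h8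
    rw [dotProduct_add, dotProduct_smul, dotProduct_smul, h3', h2] at h9
    simp at h8 h9
    exact ⟨h8, h9⟩
  · intro s t
    have h9 := h s t
    rw [hQ, hG₁, hG₂] at h9
    rw [mul_assoc l⁻¹, ← h9, ← mul_assoc, inv_mul_cancel₀ hl, one_mul]

/-- **Existence of the line.**  If the special form is good for all but countably many members of
the pencil spanned by it and `F`, then `F` is good. -/
lemma good_of_countable {N r a b₁ b₂ k : ℕ} {F₀ F : MvPolynomial (Fin N) ℂ}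
    (h : Set.Countable {c : ℂ | ¬ Good r a b₁ b₂ k ((1 - c) • F₀ + c • F)}) :
    Good r a b₁ b₂ k F := by
  have hdense : Dense ({c : ℂ | ¬ Good r a b₁ b₂ k ((1 - c) • F₀ + c • F)}ᶜ) :=
    h.dense_compl ℂ
  have hclosed := isClosed_good r a b₁ b₂ k F₀ F
  have huniv : {c : ℂ | Good r a b₁ b₂ k ((1 - c) • F₀ + c • F)} = Set.univ := by
    have h1 : {c : ℂ | ¬ Good r a b₁ b₂ k ((1 - c) • F₀ + c • F)}ᶜ =
        {c : ℂ | Good r a b₁ b₂ k ((1 - c) • F₀ + c • F)} := by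
      ext c
      simp
    rw [h1] at hdense
    rw [← hclosed.closure_eq, hdense.closure_eq]
  have h1 : (1 : ℂ) ∈ {c : ℂ | Good r a b₁ b₂ k ((1 - c) • F₀ + c • F)} := by
    rw [huniv]
    trivial
  have h2 : Good r a b₁ b₂ k ((1 - (1 : ℂ)) • F₀ + (1 : ℂ) • F) := h1
  rwa [sub_self, zero_smul, zero_add, one_smul] at h2

end Pool.Agent.H84
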