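import Mathlib

/-!
# Holomorphic ordinary differential equations in complex time

Local existence, with a uniform radius, and uniqueness for an autonomous holomorphic ordinary
differential equation `u' = F u` in a complex Banach space.
-/

set_option autoImplicit false

open Metric Set Filter Topology

namespace Pool.Agent.H84.ODE

variable {E : Type*} [NormedAddCommGroup E] [NormedSpace ℂ E]

/-- Mean value inequality on a ball. -/
lemma norm_sub_le_of_hasDerivAt {f f' : ℂ → E} {c : ℂ} {r C : ℝ}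
    (hf : ∀ z ∈ ball c r, HasDerivAt f (f' z) z) (hb : ∀ z ∈ ball c r, ‖f' z‖ ≤ C) {z : ℂ}
    (hz : z ∈ ball c r) : ‖f z - f c‖ ≤ C * ‖z - c‖ := by
  have hr : 0 < r := pos_of_mem_ball hz
  exact (convex_ball c r).norm_image_sub_le_of_norm_hasDerivWithin_le
    (fun w hw => (hf w hw).hasDerivWithinAt) hb (mem_ball_self hr) hz

/-- Local existence for `u' = F u` with a radius that only depends on the bounds for `F`. -/
theorem exists_local_solution [CompleteSpace E] (F : E → E) (hF : Differentiable ℂ F)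
    {R M L : ℝ} (hM : ∀ x, ‖x‖ ≤ R + 1 → ‖F x‖ ≤ M) (hM0 : 0 ≤ M)
    (hL : ∀ x y, ‖x‖ ≤ R + 1 → ‖y‖ ≤ R + 1 → ‖F x - F y‖ ≤ L * ‖x - y‖) (hL0 : 0 ≤ L)
    {ε : ℝ} (hε1 : M * ε ≤ 1) (hε2 : L * ε ≤ 1 / 2) (c : ℂ) (x₀ : E) (hx₀ : ‖x₀‖ ≤ R) :
    ∃ u : ℂ → E, u c = x₀ ∧ (∀ z ∈ ball c ε, HasDerivAt u (F (u z)) z) ∧
      ∀ z ∈ ball c ε, ‖u z‖ ≤ R + 1 := by
  rcases le_or_gt ε 0 with hε0 | hε
  · refine ⟨fun _ => x₀, rfl, ?_, ?_⟩ <;> intro z hz <;>
      exact absurd (pos_of_mem_ball hz) (not_lt.mpr hε0)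
  -- admissible functions
  let T := {u : ℂ → E // DifferentiableOn ℂ u (ball c ε) ∧ ∀ z ∈ ball c ε, ‖u z - x₀‖ ≤ 1}
  have hbound : ∀ u : T, ∀ z ∈ ball c ε, ‖u.1 z‖ ≤ R + 1 := by
    intro u z hz
    calc ‖u.1 z‖ = ‖x₀ + (u.1 z - x₀)‖ := by congr 1; abel
      _ ≤ ‖x₀‖ + ‖u.1 z - x₀‖ := norm_add_le _ _
      _ ≤ R + 1 := add_le_add hx₀ (u.2.2 z hz)
  have hstep : ∀ u : T, ∃ v : T, v.1 c = x₀ ∧ ∀ z ∈ ball c ε, HasDerivAt v.1 (F (u.1 z)) z := by
    intro u
    have hd : DifferentiableOn ℂ (fun z => F (u.1 z)) (ball c ε) :=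
      hF.comp_differentiableOn u.2.1
    obtain ⟨g, hgc, hg⟩ := (DifferentiableOn.isExactOn_ball hd).with_val_at c x₀
    refine ⟨⟨g, fun z hz => (hg z hz).differentiableAt.differentiableWithinAt, ?_⟩, hgc, hg⟩
    intro z hz
    have h1 := norm_sub_le_of_hasDerivAt hg (fun w hw => hM _ (hbound u w hw)) hz
    rw [hgc] at h1
    refine h1.trans (le_trans ?_ hε1)
    refine mul_le_mul_of_nonneg_left ?_ hM0
    exact (mem_ball_iff_norm.mp hz).le
  choose nxt hn1 hn2 using hstep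
  let u0 : T := ⟨fun _ => x₀, differentiableOn_const _, by intro z _; simp⟩
  let s : ℕ → T := fun n => Nat.rec (nxt u0) (fun _ v => nxt v) n
  have hs1 : ∀ n, (s n).1 c = x₀ := by
    intro n
    cases n with
    | zero => exact hn1 u0
    | succ n => exact hn1 (s n)
  have hs2 : ∀ n, ∀ z ∈ ball c ε, HasDerivAt (s (n + 1)).1 (F ((s n).1 z)) z :=
    fun n => hn2 (s n)
  have hdiff : ∀ n, ∀ z ∈ ball c ε, ‖(s (n + 1)).1 z - (s n).1 z‖ ≤ 2 * (1 / 2) ^ n := by
    intro n
    induction n with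
    | zero =>
      intro z hz
      calc ‖(s (0 + 1)).1 z - (s 0).1 z‖ = ‖((s (0 + 1)).1 z - x₀) - ((s 0).1 z - x₀)‖ := by
            congr 1; abel
        _ ≤ ‖(s (0 + 1)).1 z - x₀‖ + ‖(s 0).1 z - x₀‖ := norm_sub_le _ _
        _ ≤ 1 + 1 := add_le_add ((s (0 + 1)).2.2 z hz) ((s 0).2.2 z hz)
        _ = 2 * (1 / 2) ^ 0 := by norm_num
    | succ n ih =>
      intro z hz
      have h1 : ∀ w ∈ ball c ε, HasDerivAt (fun w => (s (n + 1 + 1)).1 w - (s (n + 1)).1 w)
          (F ((s (n + 1)).1 w) - F ((s n).1 w)) w :=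
        fun w hw => (hs2 (n + 1) w hw).sub (hs2 n w hw)
      have h2 := norm_sub_le_of_hasDerivAt (C := L * (2 * (1 / 2) ^ n)) h1 (by
        intro w hw
        exact (hL _ _ (hbound _ w hw) (hbound _ w hw)).trans
          (mul_le_mul_of_nonneg_left (ih w hw) hL0)) hz
      have hc0 : (s (n + 1 + 1)).1 c - (s (n + 1)).1 c = 0 := by
        have e1 := hs1 (n + 1 + 1)
        have e2 := hs1 (n + 1)
        rw [show (s (n + 1 + 1)).1 c = x₀ from e1, show (s (n + 1)).1 c = x₀ from e2, sub_self]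
      rw [hc0, sub_zero] at h2
      refine h2.trans ?_
      have h3 : ‖z - c‖ ≤ ε := (mem_ball_iff_norm.mp hz).le
      calc L * (2 * (1 / 2) ^ n) * ‖z - c‖ ≤ L * (2 * (1 / 2) ^ n) * ε := by
            apply mul_le_mul_of_nonneg_left h3
            positivity
        _ = (L * ε) * (2 * (1 / 2) ^ n) := by ring
        _ ≤ (1 / 2) * (2 * (1 / 2) ^ n) := by
            apply mul_le_mul_of_nonneg_right hε2
            positivity
        _ = 2 * (1 / 2) ^ (n + 1) := by ring
  have hdist : ∀ z ∈ ball c ε, ∀ n, dist ((s n).1 z) ((s (n + 1)).1 z) ≤ 2 * (1 / 2 : ℝ) ^ n := by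
    intro z hz n
    rw [dist_comm, dist_eq_norm]
    exact hdiff n z hz
  have hlim : ∀ z, ∃ y, z ∈ ball c ε → Tendsto (fun n => (s n).1 z) atTop (𝓝 y) := by
    intro z
    by_cases hz : z ∈ ball c ε
    · obtain ⟨y, hy⟩ := cauchySeq_tendsto_of_complete
        (cauchySeq_of_le_geometric (1 / 2) 2 (by norm_num) (hdist z hz))
      exact ⟨y, fun _ => hy⟩
    · exact ⟨0, fun h => absurd h hz⟩
  choose u hu using hlim
  have hunif : TendstoUniformlyOn (fun n => (s n).1) u atTop (ball c ε) := by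
    rw [Metric.tendstoUniformlyOn_iff]
    intro δ hδ
    have h1 : Tendsto (fun n : ℕ => 2 * (1 / 2 : ℝ) ^ n / (1 - 1 / 2)) atTop (𝓝 0) := by
      have h2 : Tendsto (fun n : ℕ => (1 / 2 : ℝ) ^ n) atTop (𝓝 0) :=
        tendsto_pow_atTop_nhds_zero_of_lt_one (by norm_num) (by norm_num)
      have h3 := (h2.const_mul 2).div_const (1 - 1 / 2)
      simpa using h3
    filter_upwards [h1.eventually (gt_mem_nhds hδ)] with n hn z hz
    rw [dist_comm]
    exact lt_of_le_of_lt (dist_le_of_le_geometric_of_tendsto (1 / 2) 2 (by norm_num)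
      (hdist z hz) (hu z hz) n) hn
  have hlu : TendstoLocallyUniformlyOn (fun n => (s n).1) u atTop (ball c ε) :=
    hunif.tendstoLocallyUniformlyOn
  have hFd : ∀ᶠ n in atTop, DifferentiableOn ℂ ((fun n => (s n).1) n) (ball c ε) :=
    Eventually.of_forall fun n => (s n).2.1
  have hud : DifferentiableOn ℂ u (ball c ε) := hlu.differentiableOn hFd isOpen_ball
  have hderiv := hlu.deriv hFd isOpen_ball
  have hball : ∀ z ∈ ball c ε, ‖u z‖ ≤ R + 1 := by
    intro z hz
    exact le_of_tendsto (hu z hz).norm (Eventually.of_forall fun n => hbound (s n) z hz)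
  refine ⟨u, ?_, ?_, hball⟩
  · have h1 := hu c (mem_ball_self hε)
    simp only [hs1] at h1
    exact (tendsto_nhds_unique h1 tendsto_const_nhds)
  · intro z hz
    have h1 : HasDerivAt u (deriv u z) z :=
      (hud.differentiableAt (isOpen_ball.mem_nhds hz)).hasDerivAt
    have h2 : Tendsto (fun n => deriv (s n).1 z) atTop (𝓝 (deriv u z)) := hderiv.tendsto_at hz
    have h3 : Tendsto (fun n => deriv (s (n + 1)).1 z) atTop (𝓝 (deriv u z)) :=
      h2.comp (tendsto_add_atTop_nat 1)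
    have h4 : Tendsto (fun n => F ((s n).1 z)) atTop (𝓝 (F (u z))) :=
      (hF.continuous.tendsto _).comp (hu z hz)
    have h5 : (fun n => deriv (s (n + 1)).1 z) = fun n => F ((s n).1 z) := by
      funext n
      exact (hs2 n z hz).deriv
    rw [h5] at h3
    rw [← tendsto_nhds_unique h3 h4]
    exact h1

/-- Bounds for a differentiable vector field on a ball of a finite-dimensional space. -/
lemma exists_bounds [FiniteDimensional ℂ E] (F : E → E) (hF : ContDiff ℂ 1 F) (R : ℝ) :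
    ∃ B : ℝ, 0 ≤ B ∧ (∀ x, ‖x‖ ≤ R → ‖F x‖ ≤ B) ∧
      ∀ x y, ‖x‖ ≤ R → ‖y‖ ≤ R → ‖F x - F y‖ ≤ B * ‖x - y‖ := by
  have : ProperSpace E := FiniteDimensional.proper ℂ E
  have hK : IsCompact (closedBall (0 : E) R) := isCompact_closedBall 0 R
  obtain ⟨B1, hB1⟩ := hK.exists_bound_of_continuousOn hF.continuous.continuousOn
  obtain ⟨B2, hB2⟩ := hK.exists_bound_of_continuousOn
    (f := fun x => fderiv ℂ F x) (hF.continuous_fderiv one_ne_zero).continuousOn
  refine ⟨max (max B1 B2) 0, le_max_right _ _, ?_, ?_⟩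
  · intro x hx
    exact (hB1 x (by simpa using hx)).trans ((le_max_left _ _).trans (le_max_left _ _))
  · intro x y hx hy
    have h1 := (convex_closedBall (0 : E) R).norm_image_sub_le_of_norm_fderiv_le (𝕜 := ℂ)
      (f := F) (C := max (max B1 B2) 0)
      (fun z _ => (hF.differentiable one_ne_zero).differentiableAt)
      (fun z hz => (hB2 z hz).trans ((le_max_right _ _).trans (le_max_left _ _)))
      (x := y) (y := x) (by simpa using hy) (by simpa using hx)
    exact h1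

/-- Local uniqueness. -/
theorem eventuallyEq_of_solutions [FiniteDimensional ℂ E] (F : E → E) (hF : ContDiff ℂ 1 F)
    {u v : ℂ → E} {z : ℂ} (hu : ∀ᶠ w in 𝓝 z, HasDerivAt u (F (u w)) w)
    (hv : ∀ᶠ w in 𝓝 z, HasDerivAt v (F (v w)) w) (h0 : u z = v z) :
    ∀ᶠ w in 𝓝 z, u w = v w := by
  set R := ‖u z‖ + 1 with hR
  obtain ⟨B, hB0, -, hB⟩ := exists_bounds F hF R
  have hcu : ContinuousAt u z := hu.self_of_nhds.continuousAt
  have hcv : ContinuousAt v z := hv.self_of_nhds.continuousAt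
  have h1 : ∀ᶠ w in 𝓝 z, ‖u w‖ ≤ R := by
    have := hcu.norm.eventually (gt_mem_nhds (show ‖u z‖ < R by rw [hR]; linarith))
    filter_upwards [this] with w hw using hw.le
  have h2 : ∀ᶠ w in 𝓝 z, ‖v w‖ ≤ R := by
    have := hcv.norm.eventually (gt_mem_nhds (show ‖v z‖ < R by rw [hR, h0]; linarith))
    filter_upwards [this] with w hw using hw.le
  obtain ⟨ρ, hρ, hall⟩ := Metric.eventually_nhds_iff_ball.mp (hu.and (hv.and (h1.and h2)))
  set η := min ρ (1 / (2 * (B + 1))) with hη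
  have hηpos : 0 < η := lt_min hρ (by positivity)
  have hηB : B * η ≤ 1 / 2 := by
    calc B * η ≤ B * (1 / (2 * (B + 1))) := mul_le_mul_of_nonneg_left (min_le_right _ _) hB0
      _ = (B / (B + 1)) / 2 := by field_simp
      _ ≤ 1 / 2 := by
        apply div_le_div_of_nonneg_right _ (by norm_num)
        rw [div_le_one (by linarith)]
        linarith
  have hsub : ball z η ⊆ ball z ρ := ball_subset_ball (min_le_left _ _)
  -- iterate the estimate
  have hiter : ∀ n : ℕ, ∀ w ∈ ball z η, ‖u w - v w‖ ≤ 2 * R * (1 / 2) ^ n := by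
    intro n
    induction n with
    | zero =>
      intro w hw
      obtain ⟨-, -, h3, h4⟩ := hall w (hsub hw)
      calc ‖u w - v w‖ ≤ ‖u w‖ + ‖v w‖ := norm_sub_le _ _
        _ ≤ R + R := add_le_add h3 h4
        _ = 2 * R * (1 / 2) ^ 0 := by ring
    | succ n ih =>
      intro w hw
      have h5 : ∀ x ∈ ball z η, HasDerivAt (fun x => u x - v x) (F (u x) - F (v x)) x :=
        fun x hx => ((hall x (hsub hx)).1).sub ((hall x (hsub hx)).2.1)
      have h6 := norm_sub_le_of_hasDerivAt (C := B * (2 * R * (1 / 2) ^ n)) h5 (by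
        intro x hx
        obtain ⟨-, -, h3, h4⟩ := hall x (hsub hx)
        exact (hB _ _ h3 h4).trans (mul_le_mul_of_nonneg_left (ih x hx) hB0)) hw
      rw [h0, sub_self, sub_zero] at h6
      refine h6.trans ?_
      have h7 : ‖w - z‖ ≤ η := (mem_ball_iff_norm.mp hw).le
      have hR0 : 0 ≤ R := by positivity
      calc B * (2 * R * (1 / 2) ^ n) * ‖w - z‖ ≤ B * (2 * R * (1 / 2) ^ n) * η := by
            apply mul_le_mul_of_nonneg_left h7
            positivity
        _ = (B * η) * (2 * R * (1 / 2) ^ n) := by ring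
        _ ≤ (1 / 2) * (2 * R * (1 / 2) ^ n) := by
            apply mul_le_mul_of_nonneg_right hηB
            positivity
        _ = 2 * R * (1 / 2) ^ (n + 1) := by ring
  filter_upwards [ball_mem_nhds z hηpos] with w hw
  have h8 : Tendsto (fun n : ℕ => 2 * R * (1 / 2 : ℝ) ^ n) atTop (𝓝 (2 * R * 0)) :=
    (tendsto_pow_atTop_nhds_zero_of_lt_one (by norm_num) (by norm_num)).const_mul _
  have h9 : ‖u w - v w‖ ≤ 2 * R * 0 := ge_of_tendsto' h8 fun n => hiter n w hw
  rw [mul_zero] at h9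
  exact sub_eq_zero.mp (norm_le_zero_iff.mp h9)

end Pool.Agent.H84.ODE
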