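import Mathlib
import Pool.Agent.H84.HoloODE

/-!
# Entire curves in cyclic covers of the projective line with at most 4 (3) branch points

Let `κ p = 2` and let `g` be a polynomial of degree at most `κ + 2`.  The compact curve
`w ^ (p+1) = g(t)` (points at infinity: `s = 1/t`, `v = w / t^κ`, `v ^ (p+1) = s^(κ+2) g(1/s)`)
carries the vector field `t' = w ^ p`, `w' = g'(t) / (p+1)`.  It is polynomial in both charts and
it has entire solutions with arbitrary initial condition.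
-/

set_option autoImplicit false

open Metric Set Filter Topology Polynomial

namespace Pool.Agent.H84.Curve

/-- Points of the completed curve: finite points `(t, w)`, and points `v` at `t = ∞`. -/
abbrev Pt : Type := (ℂ × ℂ) ⊕ ℂ

variable (p κ : ℕ) (g : ℂ[X])

/-- The reversed polynomial `s^(κ+2) g(1/s)`. -/
noncomputable def rev : ℂ[X] := g.reflect (κ + 2)

/-- The vector field in the finite chart. -/
noncomputable def FA (x : ℂ × ℂ) : ℂ × ℂ := (x.2 ^ p, (derivative g).eval x.1 / (p + 1))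

/-- The vector field in the chart at infinity. -/
noncomputable def FB (x : ℂ × ℂ) : ℂ × ℂ :=
  (-x.2 ^ p, -((derivative (rev κ g)).eval x.1 / (p + 1)))

/-- The point with coordinates `(s, v)` in the chart at infinity. -/
noncomputable def mkB (x : ℂ × ℂ) : Pt :=
  if x.1 = 0 then Sum.inr x.2 else Sum.inl (x.1⁻¹, x.2 * x.1⁻¹ ^ κ)

/-- `u` represents `f` at `y` in the finite chart and solves the differential equation. -/
def SolA (f : ℂ → Pt) (u : ℂ → ℂ × ℂ) (y : ℂ) : Prop :=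
  HasDerivAt u (FA p g (u y)) y ∧ (u y).2 ^ (p + 1) = g.eval (u y).1 ∧ f y = Sum.inl (u y)

/-- `u` represents `f` at `y` in the chart at infinity and solves the differential equation. -/
def SolB (f : ℂ → Pt) (u : ℂ → ℂ × ℂ) (y : ℂ) : Prop :=
  HasDerivAt u (FB p κ g (u y)) y ∧ (u y).2 ^ (p + 1) = (rev κ g).eval (u y).1 ∧
    f y = mkB κ (u y)

/-- `f` is near `z` a solution of the differential equation on the curve. -/
def LocSol (f : ℂ → Pt) (z : ℂ) : Prop :=
  (∃ u, ∀ᶠ y in 𝓝 z, SolA p g f u y) ∨ (∃ u, ∀ᶠ y in 𝓝 z, SolB p κ g f u y)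

variable {p κ g}

lemma eval_rev (hg : g.natDegree ≤ κ + 2) {s : ℂ} (hs : s ≠ 0) :
    (rev κ g).eval s = s ^ (κ + 2) * g.eval s⁻¹ := by
  have hinv : Invertible (s⁻¹) := invertibleOfNonzero (inv_ne_zero hs)
  have h := eval₂_reflect_mul_pow (RingHom.id ℂ) (s⁻¹) (κ + 2) g hg
  have h1 : ⅟(s⁻¹) = s := by
    rw [invOf_eq_inv, inv_inv]
  rw [h1] at h
  rw [← Polynomial.eval₂_id, ← Polynomial.eval₂_id, ← h, rev]
  rw [mul_comm, mul_assoc, ← mul_pow, inv_mul_cancel₀ hs, one_pow, mul_one]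

lemma derivative_rev (hg : g.natDegree ≤ κ + 2) {s : ℂ} (hs : s ≠ 0) :
    s * (derivative (rev κ g)).eval s =
      (κ + 2) * (rev κ g).eval s - s ^ (κ + 1) * (derivative g).eval s⁻¹ := by
  have h1 : HasDerivAt (fun s => (rev κ g).eval s) ((derivative (rev κ g)).eval s) s :=
    Polynomial.hasDerivAt _ _
  have h2 : HasDerivAt (fun s : ℂ => s ^ (κ + 2) * g.eval s⁻¹)
      (((κ + 2 : ℕ) : ℂ) * s ^ (κ + 1) * g.eval s⁻¹ +
        s ^ (κ + 2) * ((derivative g).eval s⁻¹ * (-(s ^ 2)⁻¹))) s := by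
    have ha : HasDerivAt (fun s : ℂ => s ^ (κ + 2)) (((κ + 2 : ℕ) : ℂ) * s ^ (κ + 1)) s := by
      simpa using hasDerivAt_pow (κ + 2) s
    have hb : HasDerivAt (fun s : ℂ => g.eval s⁻¹)
        ((derivative g).eval s⁻¹ * (-(s ^ 2)⁻¹)) s :=
      (Polynomial.hasDerivAt g (s⁻¹)).comp s (hasDerivAt_inv hs)
    exact ha.mul hb
  have h3 : (fun s => (rev κ g).eval s) =ᶠ[𝓝 s] (fun s : ℂ => s ^ (κ + 2) * g.eval s⁻¹) := by
    filter_upwards [isOpen_ne.mem_nhds hs] with y hy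
    exact eval_rev hg hy
  have h4 := h1.unique (h2.congr_of_eventuallyEq h3)
  rw [h4, eval_rev hg hs]
  push_cast
  field_simp
  ring

/-- Change of chart. -/
lemma solA_of_solB (hκ : κ * p = 2) (hg : g.natDegree ≤ κ + 2) {f : ℂ → Pt} {u : ℂ → ℂ × ℂ}
    {y : ℂ} (h : SolB p κ g f u y) (hy : (u y).1 ≠ 0) :
    SolA p g f (fun z => ((u z).1⁻¹, (u z).2 * (u z).1⁻¹ ^ κ)) y := by
  obtain ⟨h1, h2, h3⟩ := h
  have hκ0 : κ ≠ 0 := by rintro rfl; simp at hκ
  obtain ⟨k, rfl⟩ : ∃ k, κ = k + 1 := ⟨κ - 1, by omega⟩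
  set s := (u y).1 with hs
  set v := (u y).2 with hv
  have hs1 : HasDerivAt (fun z => (u z).1) (-v ^ p) y := h1.fst
  have hv1 : HasDerivAt (fun z => (u z).2)
      (-((derivative (rev (k + 1) g)).eval s / (p + 1))) y := h1.snd
  have ht : HasDerivAt (fun z => (u z).1⁻¹) (-(-v ^ p) / s ^ 2) y := hs1.inv hy
  have hw := hv1.mul (ht.pow (k + 1))
  have hp1 : ((p : ℂ) + 1) ≠ 0 := Nat.cast_add_one_ne_zero p
  have hκc : ((k : ℂ) + 1) * p = 2 := by exact_mod_cast hκ
  have hd := derivative_rev hg hy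
  refine ⟨?_, ?_, ?_⟩
  · have hgoal : FA p g (s⁻¹, v * s⁻¹ ^ (k + 1)) = (-(-v ^ p) / s ^ 2,
        -((derivative (rev (k + 1) g)).eval s / (p + 1)) * s⁻¹ ^ (k + 1) +
          v * (((k + 1 : ℕ) : ℂ) * s⁻¹ ^ (k + 1 - 1) * (-(-v ^ p) / s ^ 2))) := by
      unfold FA
      refine Prod.ext ?_ ?_
      · show (v * s⁻¹ ^ (k + 1)) ^ p = -(-v ^ p) / s ^ 2
        rw [mul_pow, ← pow_mul, hκ, neg_neg, inv_pow, div_eq_mul_inv]
      · show (derivative g).eval s⁻¹ / (p + 1) = _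
        have hd' : (derivative g).eval s⁻¹ =
            (((k + 1 : ℕ) + 2) * (rev (k + 1) g).eval s -
              s * (derivative (rev (k + 1) g)).eval s) / s ^ (k + 1 + 1) := by
          rw [eq_div_iff (pow_ne_zero _ hy)]
          push_cast at hd ⊢
          linear_combination hd
        rw [hd', ← h2, Nat.add_sub_cancel]
        push_cast
        have e1 : ((k : ℂ) + 1 + 2) = (k + 1) * (p + 1) := by linear_combination -hκc
        rw [e1]
        simp only [inv_pow]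
        field_simp
        ring
    have := hw.prodMk ht
    show HasDerivAt _ (FA p g (s⁻¹, v * s⁻¹ ^ (k + 1))) y
    rw [hgoal]
    exact ht.prodMk hw
  · show (v * s⁻¹ ^ (k + 1)) ^ (p + 1) = g.eval s⁻¹
    have e2 : (k + 1) * (p + 1) = k + 1 + 2 := by
      calc (k + 1) * (p + 1) = (k + 1) * p + (k + 1) := by ring
        _ = k + 1 + 2 := by rw [hκ]; ring
    rw [mul_pow, ← pow_mul, e2, h2, eval_rev hg hy, inv_pow]
    field_simp
  · rw [h3]
    unfold mkB
    rw [if_neg hy]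

lemma exists_solA (hκ : κ * p = 2) (hg : g.natDegree ≤ κ + 2) {f : ℂ → Pt} {z : ℂ}
    (h : LocSol p κ g f z) {a : ℂ × ℂ} (ha : f z = Sum.inl a) :
    ∃ u, ∀ᶠ y in 𝓝 z, SolA p g f u y := by
  rcases h with h | ⟨u, hu⟩
  · exact h
  · have h0 := hu.self_of_nhds
    have hne : (u z).1 ≠ 0 := by
      intro h1
      have h2 := h0.2.2
      rw [ha, mkB, if_pos h1] at h2
      exact Sum.inl_ne_inr h2
    have hc : ContinuousAt (fun y => (u y).1) z := h0.1.continuousAt.fst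
    refine ⟨fun z => ((u z).1⁻¹, (u z).2 * (u z).1⁻¹ ^ κ), ?_⟩
    filter_upwards [hu, hc.eventually_ne hne] with y hy1 hy2
    exact solA_of_solB hκ hg hy1 hy2

lemma exists_solB {f : ℂ → Pt} {z : ℂ} (h : LocSol p κ g f z) {b : ℂ} (hb : f z = Sum.inr b) :
    ∃ u, (∀ᶠ y in 𝓝 z, SolB p κ g f u y) ∧ u z = (0, b) := by
  rcases h with ⟨u, hu⟩ | ⟨u, hu⟩
  · have := hu.self_of_nhds.2.2
    rw [hb] at this
    exact absurd this.symm Sum.inl_ne_inr
  · refine ⟨u, hu, ?_⟩
    have h2 := hu.self_of_nhds.2.2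
    rw [hb, mkB] at h2
    split_ifs at h2 with h3
    refine Prod.ext h3 ?_
    exact (Sum.inr_injective h2).symm

lemma mkB_injective : Function.Injective (mkB κ) := by
  intro x y h
  unfold mkB at h
  split_ifs at h with h1 h2 h2
  · exact Prod.ext (h1.trans h2.symm) (Sum.inr_injective h)
  · have h3 := Sum.inl_injective h
    rw [Prod.mk.injEq] at h3
    obtain ⟨h4, h5⟩ := h3
    have h6 : x.1 = y.1 := inv_injective h4
    refine Prod.ext h6 ?_
    rw [h6] at h5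
    exact mul_right_cancel₀ (pow_ne_zero _ (inv_ne_zero h2)) h5

lemma contDiff_eval (q : ℂ[X]) : ContDiff ℂ 1 (fun x : ℂ => q.eval x) := by
  have h : Differentiable ℂ (fun x : ℂ => q.eval x) := q.differentiable
  exact h.contDiff

lemma contDiff_FA : ContDiff ℂ 1 (FA p g) := by
  unfold FA
  apply ContDiff.prodMk
  · exact contDiff_snd.pow p
  · apply ContDiff.div_const
    exact (contDiff_eval (derivative g)).comp contDiff_fst

lemma contDiff_FB : ContDiff ℂ 1 (FB p κ g) := by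
  unfold FB
  apply ContDiff.prodMk
  · exact (contDiff_snd.pow p).neg
  · apply ContDiff.neg
    apply ContDiff.div_const
    exact (contDiff_eval (derivative (rev κ g))).comp contDiff_fst

/-- A local dichotomy: two solutions agree near `z` or are different near `z`. -/
lemma agree_or_differ (hκ : κ * p = 2) (hg : g.natDegree ≤ κ + 2) {f h : ℂ → Pt} {z : ℂ}
    (hf : LocSol p κ g f z) (hh : LocSol p κ g h z) :
    ((∀ᶠ y in 𝓝 z, f y = h y) ∧ f z = h z) ∨ (∀ᶠ y in 𝓝 z, f y ≠ h y) := by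
  -- a finite point and a point at infinity
  have hmix : ∀ {f h : ℂ → Pt} {a : ℂ × ℂ} {b : ℂ}, LocSol p κ g f z → LocSol p κ g h z →
      f z = Sum.inl a → h z = Sum.inr b → ∀ᶠ y in 𝓝 z, f y ≠ h y := by
    intro f h a b hf hh ha hb
    obtain ⟨u, hu⟩ := exists_solA hκ hg hf ha
    obtain ⟨v, hv, hvz⟩ := exists_solB hh hb
    have hcu : ContinuousAt (fun y => (u y).1) z := hu.self_of_nhds.1.continuousAt.fst
    have hcv : ContinuousAt (fun y => (v y).1) z := hv.self_of_nhds.1.continuousAt.fst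
    have hprod : ContinuousAt (fun y => (u y).1 * (v y).1) z := hcu.mul hcv
    have hprod1 : (u z).1 * (v z).1 ≠ 1 := by
      rw [hvz]; simp
    filter_upwards [hu, hv, hprod.eventually_ne hprod1] with y hy1 hy2 hy3 heq
    rw [hy1.2.2, hy2.2.2, mkB] at heq
    split_ifs at heq with h3
    have h4 := Sum.inl_injective heq
    apply hy3
    rw [h4]
    exact inv_mul_cancel₀ h3
  rcases hfz : f z with a | a <;> rcases hhz : h z with b | b
  · obtain ⟨u, hu⟩ := exists_solA hκ hg hf hfz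
    obtain ⟨v, hv⟩ := exists_solA hκ hg hh hhz
    by_cases hab : a = b
    · left
      refine ⟨?_, by rw [hab]⟩
      have e1 : u z = a := (Sum.inl_injective (hfz.symm.trans hu.self_of_nhds.2.2)).symm
      have e2 : v z = b := (Sum.inl_injective (hhz.symm.trans hv.self_of_nhds.2.2)).symm
      have h1 := ODE.eventuallyEq_of_solutions (FA p g) contDiff_FA
        (hu.mono fun y hy => hy.1) (hv.mono fun y hy => hy.1) (by rw [e1, e2, hab])
      filter_upwards [hu, hv, h1] with y hy1 hy2 hy3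
      rw [hy1.2.2, hy2.2.2, hy3]
    · right
      have e1 : u z = a := (Sum.inl_injective (hfz.symm.trans hu.self_of_nhds.2.2)).symm
      have e2 : v z = b := (Sum.inl_injective (hhz.symm.trans hv.self_of_nhds.2.2)).symm
      have hcu : ContinuousAt u z := hu.self_of_nhds.1.continuousAt
      have hcv : ContinuousAt v z := hv.self_of_nhds.1.continuousAt
      have hne : u z - v z ≠ 0 := by rw [e1, e2]; exact sub_ne_zero.mpr hab
      filter_upwards [hu, hv, (hcu.sub hcv).eventually_ne hne] with y hy1 hy2 hy3 heq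
      rw [hy1.2.2, hy2.2.2] at heq
      exact hy3 (sub_eq_zero.mpr (Sum.inl_injective heq))
  · right
    exact hmix hf hh hfz hhz
  · right
    exact (hmix hh hf hhz hfz).mono fun y hy => hy.symm
  · obtain ⟨u, hu, e1⟩ := exists_solB hf hfz
    obtain ⟨v, hv, e2⟩ := exists_solB hh hhz
    by_cases hab : a = b
    · left
      refine ⟨?_, by rw [hab]⟩
      have h1 := ODE.eventuallyEq_of_solutions (FB p κ g) contDiff_FB
        (hu.mono fun y hy => hy.1) (hv.mono fun y hy => hy.1) (by rw [e1, e2, hab])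
      filter_upwards [hu, hv, h1] with y hy1 hy2 hy3
      rw [hy1.2.2, hy2.2.2, hy3]
    · right
      have hcu : ContinuousAt u z := hu.self_of_nhds.1.continuousAt
      have hcv : ContinuousAt v z := hv.self_of_nhds.1.continuousAt
      have hne : u z - v z ≠ 0 := by
        rw [e1, e2]
        intro h0
        apply hab
        have := congrArg Prod.snd (sub_eq_zero.mp h0)
        exact this
      filter_upwards [hu, hv, (hcu.sub hcv).eventually_ne hne] with y hy1 hy2 hy3 heq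
      rw [hy1.2.2, hy2.2.2] at heq
      exact hy3 (sub_eq_zero.mpr (mkB_injective heq))

/-- Uniqueness of solutions on connected sets. -/
theorem eqOn_of_preconnected (hκ : κ * p = 2) (hg : g.natDegree ≤ κ + 2) {f h : ℂ → Pt}
    {U : Set ℂ} (hU : IsPreconnected U) (hf : ∀ z ∈ U, LocSol p κ g f z)
    (hh : ∀ z ∈ U, LocSol p κ g h z) {z₀ : ℂ} (hz₀ : z₀ ∈ U) (h0 : f z₀ = h z₀) :
    ∀ z ∈ U, f z = h z := by
  have hO1 : IsOpen {z | ∀ᶠ y in 𝓝 z, f y = h y} := isOpen_setOfPred_eventually_nhds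
  have hO2 : IsOpen {z | ∀ᶠ y in 𝓝 z, f y ≠ h y} := isOpen_setOfPred_eventually_nhds
  have hcov : U ⊆ {z | ∀ᶠ y in 𝓝 z, f y = h y} ∪ {z | ∀ᶠ y in 𝓝 z, f y ≠ h y} := by
    intro z hz
    rcases agree_or_differ hκ hg (hf z hz) (hh z hz) with h1 | h1
    · exact Or.inl h1.1
    · exact Or.inr h1
  have hdis : U ∩ ({z | ∀ᶠ y in 𝓝 z, f y = h y} ∩ {z | ∀ᶠ y in 𝓝 z, f y ≠ h y}) = ∅ := by
    ext z
    simp only [mem_inter_iff, mem_empty_iff_false, iff_false, not_and]
    intro _ h1 h2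
    have h3 : ∀ᶠ y in 𝓝 z, f y = h y := h1
    have h4 : ∀ᶠ y in 𝓝 z, f y ≠ h y := h2
    exact h4.self_of_nhds h3.self_of_nhds
  rcases isPreconnected_iff_subset_of_disjoint.mp hU _ _ hO1 hO2 hcov hdis with h1 | h1
  · intro z hz
    have h3 : ∀ᶠ y in 𝓝 z, f y = h y := h1 hz
    exact h3.self_of_nhds
  · have h4 : ∀ᶠ y in 𝓝 z₀, f y ≠ h y := h1 hz₀
    exact absurd h0 h4.self_of_nhds

/-- The points of the completed curve. -/
def OnCurve (p κ : ℕ) (g : ℂ[X]) (x : Pt) : Prop :=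
  match x with
  | Sum.inl a => a.2 ^ (p + 1) = g.eval a.1
  | Sum.inr b => b ^ (p + 1) = (rev κ g).eval 0

lemma onCurve_of_locSol (hκ : κ * p = 2) (hg : g.natDegree ≤ κ + 2) {f : ℂ → Pt} {z : ℂ}
    (h : LocSol p κ g f z) : OnCurve p κ g (f z) := by
  rcases hfz : f z with a | b
  · obtain ⟨u, hu⟩ := exists_solA hκ hg h hfz
    have h1 := hu.self_of_nhds
    have h2 : a = u z := Sum.inl_injective (hfz.symm.trans h1.2.2)
    rw [h2]
    exact h1.2.1
  · obtain ⟨u, hu, huz⟩ := exists_solB h hfz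
    have h1 := hu.self_of_nhds.2.1
    rw [huz] at h1
    exact h1

lemma LocSol.congr {f h : ℂ → Pt} {z : ℂ} (hf : LocSol p κ g f z)
    (heq : ∀ᶠ y in 𝓝 z, h y = f y) : LocSol p κ g h z := by
  rcases hf with ⟨u, hu⟩ | ⟨u, hu⟩
  · left
    refine ⟨u, ?_⟩
    filter_upwards [hu, heq] with y hy1 hy2
    exact ⟨hy1.1, hy1.2.1, hy2.trans hy1.2.2⟩
  · right
    refine ⟨u, ?_⟩
    filter_upwards [hu, heq] with y hy1 hy2
    exact ⟨hy1.1, hy1.2.1, hy2.trans hy1.2.2⟩

/-- Conservation of the equation of the curve, finite chart. -/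
lemma conservedA {u : ℂ → ℂ × ℂ} {c : ℂ} {ε : ℝ} (hu : ∀ z ∈ ball c ε, HasDerivAt u (FA p g (u z)) z)
    (h0 : (u c).2 ^ (p + 1) = g.eval (u c).1) :
    ∀ z ∈ ball c ε, (u z).2 ^ (p + 1) = g.eval (u z).1 := by
  intro z hz
  have hp1 : ((p : ℂ) + 1) ≠ 0 := Nat.cast_add_one_ne_zero p
  have h1 : ∀ y ∈ ball c ε, HasDerivAt (fun y => (u y).2 ^ (p + 1) - g.eval (u y).1) 0 y := by
    intro y hy
    have ha : HasDerivAt (fun y => (u y).1) ((u y).2 ^ p) y := (hu y hy).fst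
    have hb : HasDerivAt (fun y => (u y).2) ((derivative g).eval (u y).1 / (p + 1)) y :=
      (hu y hy).snd
    have hc : HasDerivAt (fun y => g.eval (u y).1)
        ((derivative g).eval (u y).1 * (u y).2 ^ p) y := by
      have hc0 : HasDerivAt (fun s : ℂ => g.eval s) ((derivative g).eval (u y).1)
          ((fun y => (u y).1) y) := Polynomial.hasDerivAt g _
      exact hc0.comp y ha
    have hd : HasDerivAt (fun y => (u y).2 ^ (p + 1)) (((p + 1 : ℕ) : ℂ) * (u y).2 ^ (p + 1 - 1) *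
        ((derivative g).eval (u y).1 / (p + 1))) y := hb.fun_pow (p + 1)
    have he := hd.fun_sub hc
    rw [Nat.add_sub_cancel] at he
    have hz : ((p + 1 : ℕ) : ℂ) * (u y).2 ^ p * ((derivative g).eval (u y).1 / (p + 1)) -
        (derivative g).eval (u y).1 * (u y).2 ^ p = 0 := by
      push_cast
      field_simp
      ring
    rw [hz] at he
    exact he
  have h2 := ODE.norm_sub_le_of_hasDerivAt (C := 0) h1 (by intro w _; simp) hz
  rw [zero_mul] at h2
  have h3 := sub_eq_zero.mp (norm_le_zero_iff.mp h2)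
  have h4 : (u c).2 ^ (p + 1) - g.eval (u c).1 = 0 := sub_eq_zero.mpr h0
  rw [h4] at h3
  exact sub_eq_zero.mp h3

/-- Conservation of the equation of the curve, chart at infinity. -/
lemma conservedB {u : ℂ → ℂ × ℂ} {c : ℂ} {ε : ℝ}
    (hu : ∀ z ∈ ball c ε, HasDerivAt u (FB p κ g (u z)) z)
    (h0 : (u c).2 ^ (p + 1) = (rev κ g).eval (u c).1) :
    ∀ z ∈ ball c ε, (u z).2 ^ (p + 1) = (rev κ g).eval (u z).1 := by
  intro z hz
  have hp1 : ((p : ℂ) + 1) ≠ 0 := Nat.cast_add_one_ne_zero p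
  have h1 : ∀ y ∈ ball c ε,
      HasDerivAt (fun y => (u y).2 ^ (p + 1) - (rev κ g).eval (u y).1) 0 y := by
    intro y hy
    have ha : HasDerivAt (fun y => (u y).1) (-(u y).2 ^ p) y := (hu y hy).fst
    have hb : HasDerivAt (fun y => (u y).2)
        (-((derivative (rev κ g)).eval (u y).1 / (p + 1))) y := (hu y hy).snd
    have hc : HasDerivAt (fun y => (rev κ g).eval (u y).1)
        ((derivative (rev κ g)).eval (u y).1 * (-(u y).2 ^ p)) y := by
      have hc0 : HasDerivAt (fun s : ℂ => (rev κ g).eval s)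
          ((derivative (rev κ g)).eval (u y).1) ((fun y => (u y).1) y) :=
        Polynomial.hasDerivAt _ _
      exact hc0.comp y ha
    have hd : HasDerivAt (fun y => (u y).2 ^ (p + 1)) (((p + 1 : ℕ) : ℂ) * (u y).2 ^ (p + 1 - 1) *
        (-((derivative (rev κ g)).eval (u y).1 / (p + 1)))) y := hb.fun_pow (p + 1)
    have he := hd.fun_sub hc
    rw [Nat.add_sub_cancel] at he
    have hz : ((p + 1 : ℕ) : ℂ) * (u y).2 ^ p *
        (-((derivative (rev κ g)).eval (u y).1 / (p + 1))) -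
        (derivative (rev κ g)).eval (u y).1 * (-(u y).2 ^ p) = 0 := by
      push_cast
      field_simp
      ring
    rw [hz] at he
    exact he
  have h2 := ODE.norm_sub_le_of_hasDerivAt (C := 0) h1 (by intro w _; simp) hz
  rw [zero_mul] at h2
  have h3 := sub_eq_zero.mp (norm_le_zero_iff.mp h2)
  have h4 : (u c).2 ^ (p + 1) - (rev κ g).eval (u c).1 = 0 := sub_eq_zero.mpr h0
  rw [h4] at h3
  exact sub_eq_zero.mp h3

lemma norm_le_of_pow_le {w : ℂ} {C : ℝ} (h : ‖w ^ (p + 1)‖ ≤ C) : ‖w‖ ≤ max 1 C := by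
  by_contra hcon
  push Not at hcon
  have h1 : 1 < ‖w‖ := lt_of_le_of_lt (le_max_left _ _) hcon
  have h2 : C < ‖w‖ := lt_of_le_of_lt (le_max_right _ _) hcon
  rw [norm_pow] at h
  have h3 : ‖w‖ ≤ ‖w‖ ^ (p + 1) := le_self_pow₀ h1.le (by omega)
  linarith

/-- Solutions exist on balls of a uniform radius. -/
theorem exists_uniform (hκ : κ * p = 2) (hg : g.natDegree ≤ κ + 2) :
    ∃ ε : ℝ, 0 < ε ∧ ∀ x : Pt, OnCurve p κ g x → ∀ c : ℂ, ∃ h : ℂ → Pt, h c = x ∧
      ∀ z ∈ ball c ε, LocSol p κ g h z := by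
  obtain ⟨C1, hC1⟩ := (isCompact_closedBall (0 : ℂ) 1).exists_bound_of_continuousOn
    (f := fun t => g.eval t) g.continuous.continuousOn
  obtain ⟨C2, hC2⟩ := (isCompact_closedBall (0 : ℂ) 1).exists_bound_of_continuousOn
    (f := fun t => (rev κ g).eval t) (rev κ g).continuous.continuousOn
  set R := max 1 (max C1 C2) with hR
  obtain ⟨BA, hBA0, hBA1, hBA2⟩ := ODE.exists_bounds (FA p g) contDiff_FA (R + 1)
  obtain ⟨BB, hBB0, hBB1, hBB2⟩ := ODE.exists_bounds (FB p κ g) contDiff_FB (R + 1)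
  set B := max BA BB with hB
  have hB0 : 0 ≤ B := hBA0.trans (le_max_left _ _)
  set ε := 1 / (2 * (B + 1)) with hε
  have hεpos : 0 < ε := by positivity
  have hBε : B * ε ≤ 1 / 2 := by
    rw [hε]
    calc B * (1 / (2 * (B + 1))) = (B / (B + 1)) / 2 := by field_simp
      _ ≤ 1 / 2 := by
        apply div_le_div_of_nonneg_right _ (by norm_num)
        rw [div_le_one (by linarith)]
        linarith
  have hAε : BA * ε ≤ 1 / 2 := (mul_le_mul_of_nonneg_right (le_max_left _ _) hεpos.le).trans hBε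
  have hBε' : BB * ε ≤ 1 / 2 := (mul_le_mul_of_nonneg_right (le_max_right _ _) hεpos.le).trans hBε
  -- chart at infinity
  have hinf : ∀ x : ℂ × ℂ, ‖x.1‖ ≤ 1 → x.2 ^ (p + 1) = (rev κ g).eval x.1 → ∀ c : ℂ,
      ∃ h : ℂ → Pt, h c = mkB κ x ∧ ∀ z ∈ ball c ε, LocSol p κ g h z := by
    intro x hx1 hx2 c
    have hnorm : ‖x‖ ≤ R := by
      rw [Prod.norm_def]
      apply max_le
      · exact hx1.trans (le_max_left _ _)
      · refine (norm_le_of_pow_le (p := p) (C := max C1 C2) ?_)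
        rw [hx2]
        exact (hC2 _ (by simpa using hx1)).trans (le_max_right _ _)
    obtain ⟨u, huc, hu, -⟩ := ODE.exists_local_solution (FB p κ g)
      (contDiff_FB.differentiable one_ne_zero) hBB1 hBB0 hBB2 hBB0 (by linarith) hBε' c x hnorm
    have hcons := conservedB hu (by rw [huc]; exact hx2)
    refine ⟨fun z => mkB κ (u z), by simp only [huc], fun z hz => Or.inr ⟨u, ?_⟩⟩
    filter_upwards [isOpen_ball.mem_nhds hz] with y hy
    exact ⟨hu y hy, hcons y hy, rfl⟩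
  refine ⟨ε, hεpos, ?_⟩
  rintro (⟨t, w⟩ | b) hx c
  · have hx' : w ^ (p + 1) = g.eval t := hx
    by_cases ht : ‖t‖ ≤ 1
    · have hnorm : ‖((t, w) : ℂ × ℂ)‖ ≤ R := by
        rw [Prod.norm_def]
        apply max_le
        · exact ht.trans (le_max_left _ _)
        · refine (norm_le_of_pow_le (p := p) (C := max C1 C2) ?_)
          show ‖w ^ (p + 1)‖ ≤ _
          rw [hx']
          exact (hC1 _ (by simpa using ht)).trans (le_max_left _ _)
      obtain ⟨u, huc, hu, -⟩ := ODE.exists_local_solution (FA p g)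
        (contDiff_FA.differentiable one_ne_zero) hBA1 hBA0 hBA2 hBA0 (by linarith) hAε c (t, w)
        hnorm
      have hcons := conservedA hu (by rw [huc]; exact hx')
      refine ⟨fun z => Sum.inl (u z), by simp only [huc], fun z hz => Or.inl ⟨u, ?_⟩⟩
      filter_upwards [isOpen_ball.mem_nhds hz] with y hy
      exact ⟨hu y hy, hcons y hy, rfl⟩
    · push Not at ht
      have ht0 : t ≠ 0 := by
        rintro rfl
        rw [norm_zero] at ht
        linarith
      obtain ⟨h, h1, h2⟩ := hinf (t⁻¹, w * t⁻¹ ^ κ) (by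
        show ‖t⁻¹‖ ≤ 1
        rw [norm_inv]
        exact inv_le_one_of_one_le₀ ht.le) (by
        show (w * t⁻¹ ^ κ) ^ (p + 1) = (rev κ g).eval t⁻¹
        have e2 : κ * (p + 1) = κ + 2 := by rw [mul_add, hκ, mul_one, add_comm]
        rw [eval_rev hg (inv_ne_zero ht0), inv_inv, mul_pow, ← pow_mul, e2, hx', mul_comm]) c
      refine ⟨h, ?_, h2⟩
      rw [h1, mkB, if_neg (inv_ne_zero ht0)]
      congr 1
      refine Prod.ext ?_ ?_
      · show t⁻¹⁻¹ = t
        rw [inv_inv]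
      · show w * t⁻¹ ^ κ * t⁻¹⁻¹ ^ κ = w
        rw [inv_inv, mul_assoc, ← mul_pow, inv_mul_cancel₀ ht0, one_pow, mul_one]
  · have hx' : b ^ (p + 1) = (rev κ g).eval 0 := hx
    obtain ⟨h, h1, h2⟩ := hinf (0, b) (by simp) hx' c
    refine ⟨h, ?_, h2⟩
    rw [h1, mkB, if_pos rfl]

/-- Extension of a solution to a larger ball. -/
lemma exists_extension (hκ : κ * p = 2) (hg : g.natDegree ≤ κ + 2) {ε : ℝ} (hε : 0 < ε)
    (hloc : ∀ x : Pt, OnCurve p κ g x → ∀ c : ℂ, ∃ h : ℂ → Pt, h c = x ∧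
      ∀ z ∈ ball c ε, LocSol p κ g h z) {R : ℝ} (hR : 0 < R) {f : ℂ → Pt}
    (hf : ∀ z ∈ ball (0 : ℂ) R, LocSol p κ g f z) :
    ∃ F : ℂ → Pt, F 0 = f 0 ∧ ∀ z ∈ ball (0 : ℂ) (R + ε / 2), LocSol p κ g F z := by
  have hH : ∀ c : ℂ, ∃ h : ℂ → Pt, c ∈ ball (0 : ℂ) R →
      h c = f c ∧ ∀ z ∈ ball c ε, LocSol p κ g h z := by
    intro c
    by_cases hc : c ∈ ball (0 : ℂ) R
    · obtain ⟨h, h1, h2⟩ := hloc (f c) (onCurve_of_locSol hκ hg (hf c hc)) c
      exact ⟨h, fun _ => ⟨h1, h2⟩⟩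
    · exact ⟨f, fun h => absurd h hc⟩
  choose H hH using hH
  set ρ : ℝ := R / (R + ε / 2) with hρ
  have hR2 : 0 < R + ε / 2 := by positivity
  have hρ0 : 0 < ρ := by positivity
  have hρ1 : ρ < 1 := by
    rw [hρ, div_lt_one hR2]
    linarith
  have hρR : ρ * (R + ε / 2) = R := by rw [hρ]; field_simp
  -- the retraction
  have hin : ∀ z ∈ ball (0 : ℂ) (R + ε / 2), (ρ : ℂ) * z ∈ ball (0 : ℂ) R := by
    intro z hz
    rw [mem_ball_zero_iff] at hz ⊢
    rw [norm_mul, Complex.norm_real, Real.norm_eq_abs, abs_of_pos hρ0, ← hρR]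
    exact mul_lt_mul_of_pos_left hz hρ0
  have hnear : ∀ z ∈ ball (0 : ℂ) (R + ε / 2), ‖z - (ρ : ℂ) * z‖ < ε / 2 := by
    intro z hz
    rw [mem_ball_zero_iff] at hz
    have h1 : z - (ρ : ℂ) * z = ((1 - ρ : ℝ) : ℂ) * z := by push_cast; ring
    rw [h1, norm_mul, Complex.norm_real, Real.norm_eq_abs, abs_of_pos (by linarith)]
    calc (1 - ρ) * ‖z‖ < (1 - ρ) * (R + ε / 2) := mul_lt_mul_of_pos_left hz (by linarith)
      _ = (R + ε / 2) - ρ * (R + ε / 2) := by ring
      _ = ε / 2 := by rw [hρR]; ring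
  -- local solutions agree with `f`
  have hagree : ∀ c ∈ ball (0 : ℂ) R, ∀ z ∈ ball c ε ∩ ball (0 : ℂ) R, H c z = f z := by
    intro c hc
    refine eqOn_of_preconnected hκ hg
      ((convex_ball c ε).inter (convex_ball (0 : ℂ) R)).isPreconnected
      (fun z hz => (hH c hc).2 z hz.1) (fun z hz => hf z hz.2)
      (z₀ := c) ⟨mem_ball_self hε, hc⟩ (hH c hc).1
  refine ⟨fun z => H ((ρ : ℂ) * z) z, ?_, ?_⟩
  · show H ((ρ : ℂ) * 0) 0 = f 0
    rw [mul_zero]
    exact (hH 0 (mem_ball_self hR)).1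
  · intro z₀ hz₀
    have hc₀ := hin z₀ hz₀
    have hz₀c : z₀ ∈ ball ((ρ : ℂ) * z₀) ε := by
      rw [mem_ball_iff_norm]
      exact (hnear z₀ hz₀).trans (by linarith)
    refine ((hH _ hc₀).2 z₀ hz₀c).congr ?_
    have hcont : ContinuousAt (fun y : ℂ => (ρ : ℂ) * y) z₀ := by fun_prop
    have h1 : ∀ᶠ y in 𝓝 z₀, (ρ : ℂ) * y ∈ ball ((ρ : ℂ) * z₀) (ε / 2) :=
      hcont.eventually (isOpen_ball.mem_nhds (mem_ball_self (by linarith)))
    filter_upwards [h1, isOpen_ball.mem_nhds hz₀] with y hy1 hy2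
    have hc := hin y hy2
    have hyc := hnear y hy2
    rw [mem_ball_iff_norm] at hy1
    have h2 : H ((ρ : ℂ) * z₀) ((ρ : ℂ) * y) = f ((ρ : ℂ) * y) := by
      refine hagree _ hc₀ _ ⟨?_, hc⟩
      rw [mem_ball_iff_norm]
      linarith
    refine eqOn_of_preconnected hκ hg
      ((convex_ball ((ρ : ℂ) * y) ε).inter (convex_ball ((ρ : ℂ) * z₀) ε)).isPreconnected
      (fun z hz => (hH _ hc).2 z hz.1) (fun z hz => (hH _ hc₀).2 z hz.2)
      (z₀ := (ρ : ℂ) * y) ⟨mem_ball_self hε, ?_⟩ ?_ y ⟨?_, ?_⟩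
    · rw [mem_ball_iff_norm]
      linarith
    · rw [(hH _ hc).1, h2]
    · rw [mem_ball_iff_norm]
      linarith
    · rw [mem_ball_iff_norm]
      calc ‖y - (ρ : ℂ) * z₀‖ = ‖(y - (ρ : ℂ) * y) + ((ρ : ℂ) * y - (ρ : ℂ) * z₀)‖ := by
            congr 1; ring
        _ ≤ ‖y - (ρ : ℂ) * y‖ + ‖(ρ : ℂ) * y - (ρ : ℂ) * z₀‖ := norm_add_le _ _
        _ < ε := by linarith

/-- **Entire solutions.**  Through every point of the completed curve passes an entire solution
of the differential equation. -/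
theorem exists_entire (hκ : κ * p = 2) (hg : g.natDegree ≤ κ + 2) {x : Pt}
    (hx : OnCurve p κ g x) : ∃ f : ℂ → Pt, f 0 = x ∧ ∀ z, LocSol p κ g f z := by
  obtain ⟨ε, hε, hloc⟩ := exists_uniform hκ hg
  have hn : ∀ n : ℕ, ∃ f : ℂ → Pt, f 0 = x ∧
      ∀ z ∈ ball (0 : ℂ) (ε + n * (ε / 2)), LocSol p κ g f z := by
    intro n
    induction n with
    | zero =>
      obtain ⟨h, h1, h2⟩ := hloc x hx 0
      refine ⟨h, h1, ?_⟩
      simpa using h2
    | succ n ih =>
      obtain ⟨f, hf1, hf2⟩ := ih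
      obtain ⟨F, hF1, hF2⟩ := exists_extension hκ hg hε hloc (by positivity) hf2
      refine ⟨F, hF1.trans hf1, ?_⟩
      have h3 : ε + ((n + 1 : ℕ) : ℝ) * (ε / 2) = ε + n * (ε / 2) + ε / 2 := by
        push_cast; ring
      rw [h3]
      exact hF2
  choose φ hφ0 hφ using hn
  have hmono : ∀ {m n : ℕ}, m ≤ n →
      ball (0 : ℂ) (ε + m * (ε / 2)) ⊆ ball (0 : ℂ) (ε + n * (ε / 2)) := by
    intro m n hmn
    apply ball_subset_ball
    have : (m : ℝ) ≤ n := by exact_mod_cast hmn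
    nlinarith
  have heq : ∀ {m n : ℕ}, m ≤ n → ∀ z ∈ ball (0 : ℂ) (ε + m * (ε / 2)), φ m z = φ n z := by
    intro m n hmn
    refine eqOn_of_preconnected hκ hg (convex_ball _ _).isPreconnected (hφ m)
      (fun z hz => hφ n z (hmono hmn hz)) (z₀ := 0) (mem_ball_self (by positivity)) ?_
    rw [hφ0, hφ0]
  have hN : ∀ z : ℂ, ∃ n : ℕ, z ∈ ball (0 : ℂ) (ε + n * (ε / 2)) := by
    intro z
    obtain ⟨n, hn⟩ := exists_nat_gt (‖z‖ / (ε / 2))
    refine ⟨n, ?_⟩
    rw [mem_ball_zero_iff]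
    rw [div_lt_iff₀ (by positivity)] at hn
    linarith
  choose N hN using hN
  have hfφ : ∀ n : ℕ, ∀ z ∈ ball (0 : ℂ) (ε + n * (ε / 2)), φ (N z) z = φ n z := by
    intro n z hz
    rcases le_total (N z) n with h | h
    · exact heq h z (hN z)
    · exact (heq h z hz).symm
  refine ⟨fun z => φ (N z) z, hφ0 _, fun z => ?_⟩
  refine (hφ (N z) z (hN z)).congr ?_
  filter_upwards [isOpen_ball.mem_nhds (hN z)] with y hy
  exact hfφ (N z) y hy

end Pool.Agent.H84.Curve
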