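import Mathlib
import Pool.Agent.H6.LineThrough

/-!
# Lines on which the branch polynomial is an `r`-th power times a form of low degree
-/

set_option autoImplicit false

namespace Pool.Agent.H84

open MvPolynomial Pool.Agent.H6

variable {K : Type*} [Field K] {n : ℕ}

/-- The polynomial `1 + a_0 T + a_1 T² + ⋯ + a_{k-1} T^k`. -/
noncomputable def onePlus {R : Type*} [CommSemiring R] {k : ℕ} (a : Fin k → R) : Polynomial R :=
  1 + ∑ i : Fin k, Polynomial.C (a i) * Polynomial.X ^ ((i : ℕ) + 1)

lemma map_onePlus {R S : Type*} [CommSemiring R] [CommSemiring S] (f : R →+* S) {k : ℕ}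
    (a : Fin k → R) : (onePlus a).map f = onePlus (fun i => f (a i)) := by
  unfold onePlus
  rw [Polynomial.map_add, Polynomial.map_one, Polynomial.map_sum]
  simp

lemma natDegree_onePlus {R : Type*} [CommSemiring R] {k : ℕ} (a : Fin k → R) :
    (onePlus a).natDegree ≤ k := by
  unfold onePlus
  refine (Polynomial.natDegree_add_le _ _).trans (max_le (by simp) ?_)
  refine Polynomial.natDegree_sum_le_of_forall_le _ _ fun i _ => ?_
  refine (Polynomial.natDegree_C_mul_X_pow_le _ _).trans ?_
  have := i.2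
  omega

lemma coeff_onePlus {R : Type*} [CommSemiring R] {k : ℕ} (a : Fin k → R) (i : Fin k) :
    (onePlus a).coeff ((i : ℕ) + 1) = a i := by
  unfold onePlus
  rw [Polynomial.coeff_add, Polynomial.finsetSum_coeff]
  rw [Finset.sum_eq_single i]
  · rw [Polynomial.coeff_C_mul_X_pow, if_pos rfl, Polynomial.coeff_one, if_neg (by omega),
      zero_add]
  · intro j _ hj
    rw [Polynomial.coeff_C_mul_X_pow, if_neg]
    intro h
    apply hj
    apply Fin.ext
    omega
  · intro h
    exact absurd (Finset.mem_univ _) h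

lemma onePlus_zero {R : Type*} [CommSemiring R] {k : ℕ} :
    onePlus (fun _ : Fin k => (0 : R)) = 1 := by
  unfold onePlus
  simp

lemma eq_zero_of_isUnit_onePlus {k : ℕ} {a : Fin k → K} (h : IsUnit (onePlus a)) : a = 0 := by
  have h1 := Polynomial.natDegree_eq_zero_of_isUnit h
  funext i
  rw [← coeff_onePlus a i]
  exact Polynomial.coeff_eq_zero_of_natDegree_lt (by omega)

/-- **Key statement.**  Let `x` be a zero of the polynomials `G i`, of degrees at most `e i`, and
let `F x ≠ 0`, `F` of degree at most `r m`, where `r (m - κ) + (κ + 2) = r m` and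
`∑ e i + (r - 1) m ≤ n`, where `n` is the number of homogeneous coordinates.  Let `ℓ` be a
coordinate.  Then there are `v` with `v ≠ 0`, `v ℓ = 0`, and polynomials `q`, `g` of degrees at
most `m - κ` and `κ + 2` such that every `G i` vanishes on the line `x + t v` and
`F (x + t v) = q(t) ^ r g(t)`. -/
theorem exists_line_cyclic [IsAlgClosed K] {c : ℕ} (e : Fin c → ℕ) (r m κ : ℕ) (hr : r ≠ 0)
    (hκm : κ ≤ m) (hrm : r * (m - κ) + (κ + 2) = r * m)
    (G : Fin c → MvPolynomial (Fin n) K) (F : MvPolynomial (Fin n) K)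
    (hG : ∀ i, (G i).totalDegree ≤ e i) (hF : F.totalDegree ≤ r * m)
    (hdeg : ∑ i, e i + (r - 1) * m ≤ n) (x : Fin n → K) (hx : ∀ i, eval x (G i) = 0)
    (hFx : eval x F ≠ 0) (ℓ : Fin n) :
    ∃ (v : Fin n → K) (q g : Polynomial K), v ≠ 0 ∧ v ℓ = 0 ∧ q.natDegree ≤ m - κ ∧
      g.natDegree ≤ κ + 2 ∧ q.eval 0 = 1 ∧ g.eval 0 = eval x F ∧
      (∀ i (t : K), eval (fun j => x j + t * v j) (G i) = 0) ∧
      (∀ t : K, eval (fun j => x j + t * v j) F = q.eval t ^ r * g.eval t) := by
  classical
  -- unknowns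
  let τ := Fin n ⊕ (Fin (m - κ) ⊕ Fin (κ + 2))
  let ιv : Fin n → τ := Sum.inl
  let Q : Polynomial (MvPolynomial τ K) :=
    Polynomial.C (C (eval x F)) *
      ((onePlus (fun k : Fin (m - κ) => (X (Sum.inr (Sum.inl k)) : MvPolynomial τ K))) ^ r *
      onePlus (fun k : Fin (κ + 2) => (X (Sum.inr (Sum.inr k)) : MvPolynomial τ K)))
  let H : ((Σ i : Fin c, Fin (e i)) ⊕ (Fin (r * m) ⊕ Unit)) → MvPolynomial τ K := fun s =>
    match s with
    | Sum.inl ⟨i, k⟩ => (onLineU ιv x (G i)).coeff (k + 1)
    | Sum.inr (Sum.inl k) => (onLineU ιv x F - Q).coeff (k + 1)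
    | Sum.inr (Sum.inr _) => X (Sum.inl ℓ)
  have hcoefG : ∀ (i : Fin c) (k : ℕ) (y : τ → K), eval y ((onLineU ιv x (G i)).coeff k) =
      (onLine x (fun j => y (ιv j)) (G i)).coeff k := by
    intro i k y
    rw [← map_onLineU ιv x (G i) y, Polynomial.coeff_map]
  have hcoefF : ∀ (k : ℕ) (y : τ → K), eval y ((onLineU ιv x F - Q).coeff k) =
      (onLine x (fun j => y (ιv j)) F -
        Polynomial.C (eval x F) * ((onePlus (fun k => y (Sum.inr (Sum.inl k)))) ^ r *
          onePlus (fun k => y (Sum.inr (Sum.inr k))))).coeff k := by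
    intro k y
    rw [← map_onLineU ιv x F y, ← Polynomial.coeff_map]
    congr 1
    simp [Q, Polynomial.map_sub, Polynomial.map_mul, Polynomial.map_pow, map_onePlus]
  have hline0 : ∀ P : MvPolynomial (Fin n) K, onLine x (fun _ => (0 : K)) P =
      Polynomial.C (eval x P) := by
    intro P
    apply Polynomial.funext
    intro t
    rw [eval_onLine]
    simp
  have h0 : ∀ s, eval (0 : τ → K) (H s) = 0 := by
    rintro (⟨i, k⟩ | k | u)
    · show eval (0 : τ → K) ((onLineU ιv x (G i)).coeff (k + 1)) = 0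
      rw [hcoefG]
      simp only [Pi.zero_apply]
      rw [hline0]
      simp
    · show eval (0 : τ → K) ((onLineU ιv x F - Q).coeff (k + 1)) = 0
      rw [hcoefF]
      simp only [Pi.zero_apply]
      rw [hline0, onePlus_zero, onePlus_zero]
      simp
    · show eval (0 : τ → K) (X (Sum.inl ℓ)) = 0
      simp
  have hr1 : r * m = (r - 1) * m + m := by
    obtain ⟨k, rfl⟩ : ∃ k, r = k + 1 := ⟨r - 1, by omega⟩
    rw [Nat.add_sub_cancel]
    ring
  have hcard : Nat.card ((Σ i : Fin c, Fin (e i)) ⊕ (Fin (r * m) ⊕ Unit)) < Nat.card τ := by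
    simp only [Nat.card_eq_fintype_card, Fintype.card_sum, Fintype.card_sigma, Fintype.card_fin,
      Fintype.card_unit, τ]
    omega
  obtain ⟨y, hy0, hy⟩ := exists_ne_zero_common_zero H h0 hcard
  set v : Fin n → K := fun j => y (Sum.inl j) with hv
  set a : Fin (m - κ) → K := fun k => y (Sum.inr (Sum.inl k)) with ha
  set b : Fin (κ + 2) → K := fun k => y (Sum.inr (Sum.inr k)) with hb
  have hGline : ∀ i, onLine x v (G i) = 0 := by
    intro i
    ext k
    rw [Polynomial.coeff_zero]
    rcases Nat.eq_zero_or_pos k with rfl | hk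
    · rw [Polynomial.coeff_zero_eq_eval_zero, eval_onLine]
      simpa using hx i
    · by_cases hke : k ≤ e i
      · have := hy (Sum.inl ⟨i, ⟨k - 1, by omega⟩⟩)
        have h3 : eval y ((onLineU ιv x (G i)).coeff (k - 1 + 1)) = 0 := this
        rw [hcoefG, Nat.sub_add_cancel hk] at h3
        exact h3
      · apply Polynomial.coeff_eq_zero_of_natDegree_lt
        exact lt_of_le_of_lt (natDegree_onLine x v (G i) (hG i)) (by omega)
  have hone : ∀ {k : ℕ} (a : Fin k → K), (onePlus a).coeff 0 = 1 := by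
    intro k a
    unfold onePlus
    rw [Polynomial.coeff_add, Polynomial.finsetSum_coeff, Finset.sum_eq_zero]
    · simp
    · intro i _
      rw [Polynomial.coeff_C_mul_X_pow, if_neg (by omega)]
  have hone' : ∀ {k : ℕ} (a : Fin k → K), (onePlus a).eval 0 = 1 := by
    intro k a
    rw [← Polynomial.coeff_zero_eq_eval_zero, hone]
  have hFline : onLine x v F = Polynomial.C (eval x F) * ((onePlus a) ^ r * onePlus b) := by
    rw [← sub_eq_zero]
    ext k
    rw [Polynomial.coeff_zero]
    rcases Nat.eq_zero_or_pos k with rfl | hk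
    · rw [Polynomial.coeff_zero_eq_eval_zero, Polynomial.eval_sub, eval_onLine]
      simp [hone']
    · by_cases hke : k ≤ r * m
      · have := hy (Sum.inr (Sum.inl ⟨k - 1, by omega⟩))
        have h3 : eval y ((onLineU ιv x F - Q).coeff (k - 1 + 1)) = 0 := this
        rw [hcoefF, Nat.sub_add_cancel hk] at h3
        exact h3
      · apply Polynomial.coeff_eq_zero_of_natDegree_lt
        refine lt_of_le_of_lt (Polynomial.natDegree_sub_le _ _) (max_lt ?_ ?_)
        · exact lt_of_le_of_lt (natDegree_onLine x v F hF) (by omega)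
        · refine lt_of_le_of_lt (Polynomial.natDegree_C_mul_le _ _) ?_
          refine lt_of_le_of_lt Polynomial.natDegree_mul_le ?_
          have h1 : ((onePlus a) ^ r).natDegree ≤ r * (m - κ) :=
            Polynomial.natDegree_pow_le.trans (Nat.mul_le_mul_left _ (natDegree_onePlus a))
          have h2 := natDegree_onePlus b
          omega
  refine ⟨v, onePlus a, Polynomial.C (eval x F) * onePlus b, ?_, ?_, natDegree_onePlus a,
    (Polynomial.natDegree_C_mul_le _ _).trans (natDegree_onePlus b), hone' a, ?_, ?_, ?_⟩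
  · -- `v ≠ 0`
    intro hv0
    have h1 : (onePlus a) ^ r * onePlus b = 1 := by
      have h2 : onLine x v F = Polynomial.C (eval x F) := by
        rw [hv0]; exact hline0 F
      rw [h2] at hFline
      have h3 : (Polynomial.C (eval x F) : Polynomial K) ≠ 0 := by
        rw [Ne, Polynomial.C_eq_zero]; exact hFx
      apply mul_left_cancel₀ h3
      rw [← hFline, mul_one]
    have hb0 : b = 0 := eq_zero_of_isUnit_onePlus (IsUnit.of_mul_eq_one_right _ h1)
    have ha0 : a = 0 := by
      have h4 : IsUnit ((onePlus a) ^ r) := IsUnit.of_mul_eq_one _ h1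
      exact eq_zero_of_isUnit_onePlus ((isUnit_pow_iff hr).mp h4)
    apply hy0
    funext s
    rcases s with j | j | j
    · exact congrFun hv0 j
    · exact congrFun ha0 j
    · exact congrFun hb0 j
  · have := hy (Sum.inr (Sum.inr ()))
    have h3 : eval y (X (Sum.inl ℓ)) = 0 := this
    simpa using h3
  · simp [hone']
  · intro i t
    rw [← eval_onLine, hGline]
    simp
  · intro t
    rw [← eval_onLine, hFline]
    simp only [Polynomial.eval_mul, Polynomial.eval_pow, Polynomial.eval_C]
    ring

end Pool.Agent.H84
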