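import Mathlib
import Pool.Agent.H84.CyclicLine
import Pool.Agent.H84.LineLimit

/-!
# Lines through a point on which `F` is `q ^ r g`, with a root of `g` at infinity
-/

set_option autoImplicit false

namespace Pool.Agent.H84

open MvPolynomial Pool.Agent.H6

variable {n : ℕ}

/-- Through every `x` with `G i x = 0`, `F x ≠ 0` there is a line `x + t v` on which all `G i`
vanish and `F` is `q ^ r g` with `deg q ≤ m - κ`, `deg g ≤ κ + 1` (so the binary form of degree
`κ + 2` that belongs to `g` vanishes at `v`). -/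
theorem exists_line_root {c : ℕ} (e : Fin c → ℕ) (r m κ : ℕ) (hr : r ≠ 0)
    (hκm : κ ≤ m) (hrm : r * (m - κ) + (κ + 2) = r * m)
    (G : Fin c → MvPolynomial (Fin n) ℂ) (F : MvPolynomial (Fin n) ℂ)
    (hG : ∀ i, (G i).totalDegree ≤ e i) (hF : F.IsHomogeneous (r * m))
    (hdeg : ∑ i, e i + (r - 1) * m ≤ n) (x : Fin n → ℂ) (hx : ∀ i, eval x (G i) = 0)
    (hFx : eval x F ≠ 0) :
    ∃ (v : Fin n → ℂ) (q g : Polynomial ℂ), (∀ α β : ℂ, α • x + β • v = 0 → α = 0 ∧ β = 0) ∧
      q.natDegree ≤ m - κ ∧ g.natDegree ≤ κ + 1 ∧ q.eval 0 = 1 ∧ g.eval 0 = eval x F ∧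
      (∀ i, onLine x v (G i) = 0) ∧ onLine x v F = q ^ r * g := by
  classical
  -- unknowns
  let τ := Fin n ⊕ (Fin (m - κ) ⊕ Fin (κ + 1))
  let ιv : Fin n → τ := Sum.inl
  let Q : Polynomial (MvPolynomial τ ℂ) :=
    Polynomial.C (C (eval x F)) *
      ((onePlus (fun k : Fin (m - κ) => (X (Sum.inr (Sum.inl k)) : MvPolynomial τ ℂ))) ^ r *
      onePlus (fun k : Fin (κ + 1) => (X (Sum.inr (Sum.inr k)) : MvPolynomial τ ℂ)))
  let H : ((Σ i : Fin c, Fin (e i)) ⊕ Fin (r * m)) → MvPolynomial τ ℂ := fun s =>
    match s with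
    | Sum.inl ⟨i, k⟩ => (onLineU ιv x (G i)).coeff (k + 1)
    | Sum.inr k => (onLineU ιv x F - Q).coeff (k + 1)
  have hcoefG : ∀ (i : Fin c) (k : ℕ) (y : τ → ℂ), eval y ((onLineU ιv x (G i)).coeff k) =
      (onLine x (fun j => y (ιv j)) (G i)).coeff k := by
    intro i k y
    rw [← map_onLineU ιv x (G i) y, Polynomial.coeff_map]
  have hcoefF : ∀ (k : ℕ) (y : τ → ℂ), eval y ((onLineU ιv x F - Q).coeff k) =
      (onLine x (fun j => y (ιv j)) F -
        Polynomial.C (eval x F) * ((onePlus (fun k => y (Sum.inr (Sum.inl k)))) ^ r *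
          onePlus (fun k => y (Sum.inr (Sum.inr k))))).coeff k := by
    intro k y
    rw [← map_onLineU ιv x F y, ← Polynomial.coeff_map]
    congr 1
    simp [Q, Polynomial.map_sub, Polynomial.map_mul, Polynomial.map_pow, map_onePlus]
  have hline0 : ∀ P : MvPolynomial (Fin n) ℂ, onLine x (fun _ => (0 : ℂ)) P =
      Polynomial.C (eval x P) := by
    intro P
    apply Polynomial.funext
    intro t
    rw [eval_onLine]
    simp
  have h0 : ∀ s, eval (0 : τ → ℂ) (H s) = 0 := by
    rintro (⟨i, k⟩ | k)
    · show eval (0 : τ → ℂ) ((onLineU ιv x (G i)).coeff (k + 1)) = 0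
      rw [hcoefG]
      simp only [Pi.zero_apply]
      rw [hline0]
      simp
    · show eval (0 : τ → ℂ) ((onLineU ιv x F - Q).coeff (k + 1)) = 0
      rw [hcoefF]
      simp only [Pi.zero_apply]
      rw [hline0, onePlus_zero, onePlus_zero]
      simp
  have hr1 : r * m = (r - 1) * m + m := by
    obtain ⟨k, rfl⟩ : ∃ k, r = k + 1 := ⟨r - 1, by omega⟩
    rw [Nat.add_sub_cancel]
    ring
  have hcard : Nat.card ((Σ i : Fin c, Fin (e i)) ⊕ Fin (r * m)) < Nat.card τ := by
    simp only [Nat.card_eq_fintype_card, Fintype.card_sum, Fintype.card_sigma, Fintype.card_fin, τ]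
    omega
  obtain ⟨y, hy0, hy⟩ := exists_ne_zero_common_zero H h0 hcard
  set v : Fin n → ℂ := fun j => y (Sum.inl j) with hv
  set a : Fin (m - κ) → ℂ := fun k => y (Sum.inr (Sum.inl k)) with ha
  set b : Fin (κ + 1) → ℂ := fun k => y (Sum.inr (Sum.inr k)) with hb
  have hGline : ∀ i, onLine x v (G i) = 0 := by
    intro i
    ext k
    rw [Polynomial.coeff_zero]
    rcases Nat.eq_zero_or_pos k with rfl | hk
    · rw [Polynomial.coeff_zero_eq_eval_zero, eval_onLine]
      simpa using hx i
    · by_cases hke : k ≤ e i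
      · have := hy (Sum.inl ⟨i, ⟨k - 1, by omega⟩⟩)
        have h3 : eval y ((onLineU ιv x (G i)).coeff (k - 1 + 1)) = 0 := this
        rw [hcoefG, Nat.sub_add_cancel hk] at h3
        exact h3
      · apply Polynomial.coeff_eq_zero_of_natDegree_lt
        exact lt_of_le_of_lt (natDegree_onLine x v (G i) (hG i)) (by omega)
  have hone' : ∀ {k : ℕ} (a : Fin k → ℂ), (onePlus a).eval 0 = 1 := by
    intro k a
    unfold onePlus
    rw [Polynomial.eval_add, Polynomial.eval_finsetSum]
    simp
  have hprod : ∀ (a : Fin (m - κ) → ℂ) (b : Fin (κ + 1) → ℂ),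
      ((onePlus a) ^ r * onePlus b).natDegree + 1 ≤ r * m := by
    intro a b
    have h1 : ((onePlus a) ^ r).natDegree ≤ r * (m - κ) :=
      Polynomial.natDegree_pow_le.trans (Nat.mul_le_mul_left _ (natDegree_onePlus a))
    have h2 := natDegree_onePlus b
    have h3 := Polynomial.natDegree_mul_le (p := (onePlus a) ^ r) (q := onePlus b)
    omega
  have hFline : onLine x v F = Polynomial.C (eval x F) * ((onePlus a) ^ r * onePlus b) := by
    rw [← sub_eq_zero]
    ext k
    rw [Polynomial.coeff_zero]
    rcases Nat.eq_zero_or_pos k with rfl | hk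
    · rw [Polynomial.coeff_zero_eq_eval_zero, Polynomial.eval_sub, eval_onLine]
      simp [hone']
    · by_cases hke : k ≤ r * m
      · have := hy (Sum.inr ⟨k - 1, by omega⟩)
        have h3 : eval y ((onLineU ιv x F - Q).coeff (k - 1 + 1)) = 0 := this
        rw [hcoefF, Nat.sub_add_cancel hk] at h3
        exact h3
      · apply Polynomial.coeff_eq_zero_of_natDegree_lt
        refine lt_of_le_of_lt (Polynomial.natDegree_sub_le _ _) (max_lt ?_ ?_)
        · exact lt_of_le_of_lt (natDegree_onLine x v F hF.totalDegree_le) (by omega)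
        · refine lt_of_le_of_lt (Polynomial.natDegree_C_mul_le _ _) ?_
          have := hprod a b
          omega
  have hC : (Polynomial.C (eval x F) : Polynomial ℂ) ≠ 0 := by
    rw [Ne, Polynomial.C_eq_zero]; exact hFx
  have hx0 : x ≠ 0 := by
    rintro rfl
    apply hFx
    have h1 := eval_smul_of_homog hF 0 (0 : Fin n → ℂ)
    have hD : r * m ≠ 0 := by omega
    rw [smul_zero, zero_pow hD, zero_mul] at h1
    exact h1
  refine ⟨v, onePlus a, Polynomial.C (eval x F) * onePlus b, ?_, natDegree_onePlus a,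
    (Polynomial.natDegree_C_mul_le _ _).trans (natDegree_onePlus b), hone' a, ?_, hGline, ?_⟩
  · -- independence
    have hkey : ∀ c : ℂ, v ≠ c • x := by
      intro c hc
      -- the restriction is `F(x) (1 + c t) ^ (r m)`
      have h1 : onLine x v F = Polynomial.C (eval x F) *
          (1 + Polynomial.C c * Polynomial.X) ^ (r * m) := by
        apply Polynomial.funext
        intro t
        have h2 : (fun j => x j + t * v j) = (1 + c * t) • x := by
          funext j
          rw [hc]
          simp only [Pi.smul_apply, smul_eq_mul]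
          ring
        rw [eval_onLine, h2, eval_smul_of_homog hF]
        simp
        ring
      rw [hFline] at h1
      have h2 := mul_left_cancel₀ hC h1
      have hc0 : c = 0 := by
        by_contra hc0
        have h3 : ((1 + Polynomial.C c * Polynomial.X : Polynomial ℂ) ^ (r * m)).natDegree =
            r * m := by
          rw [Polynomial.natDegree_pow]
          have h4 : (1 + Polynomial.C c * Polynomial.X : Polynomial ℂ).natDegree = 1 := by
            rw [add_comm, ← Polynomial.C_1]
            exact Polynomial.natDegree_linear hc0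
          rw [h4, mul_one]
        have h5 := hprod a b
        rw [h2, h3] at h5
        omega
      rw [hc0, zero_smul] at hc
      rw [hc0, Polynomial.C_0, zero_mul, add_zero, one_pow] at h2
      have hb0 : b = 0 := eq_zero_of_isUnit_onePlus (IsUnit.of_mul_eq_one_right _ h2)
      have ha0 : a = 0 := by
        have h4 : IsUnit ((onePlus a) ^ r) := IsUnit.of_mul_eq_one _ h2
        exact eq_zero_of_isUnit_onePlus ((isUnit_pow_iff hr).mp h4)
      apply hy0
      funext s
      rcases s with j | j | j
      · exact congrFun hc j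
      · exact congrFun ha0 j
      · exact congrFun hb0 j
    intro α β hαβ
    have hβ : β = 0 := by
      by_contra hβ
      apply hkey (-(α / β))
      have h1 : β • v = β • (-(α / β)) • x := by
        rw [smul_smul, mul_neg, mul_div_cancel₀ _ hβ, neg_smul]
        exact eq_neg_of_add_eq_zero_right hαβ
      exact smul_right_injective _ hβ h1
    rw [hβ, zero_smul, add_zero] at hαβ
    rcases smul_eq_zero.mp hαβ with h | h
    · exact ⟨h, hβ⟩
    · exact absurd h hx0
  · simp [hone']
  · rw [hFline]
    ring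

end Pool.Agent.H84
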