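import Mathlib
import Pool.Agent.H84.CyclicLine
import Pool.Agent.H84.CurveFlow

/-!
# Entire curves in cyclic covers, in weighted projective space `P(1, …, 1, m)`
-/

set_option autoImplicit false

open Filter Topology Metric

namespace Pool.Agent.H84.WPS

/-- The nonzero vectors `(x, w)` with `x ∈ ℂ^(N+1)` and `w ∈ ℂ`. -/
abbrev NzVec (N : ℕ) : Type := {p : (Fin (N + 1) → ℂ) × ℂ // p ≠ 0}

/-- The equivalence relation `(x, w) ~ (a x, a^m w)`, `a ≠ 0`. -/
def weightedSetoid (N m : ℕ) : Setoid (NzVec N) where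
  r p q := ∃ a : ℂ, a ≠ 0 ∧ q.1.1 = a • p.1.1 ∧ q.1.2 = a ^ m * p.1.2
  iseqv := by
    refine ⟨fun p => ⟨1, one_ne_zero, by simp, by simp⟩, ?_, ?_⟩
    · rintro p q ⟨a, ha, h1, h2⟩
      refine ⟨a⁻¹, inv_ne_zero ha, ?_, ?_⟩
      · rw [h1, smul_smul, inv_mul_cancel₀ ha, one_smul]
      · rw [h2, ← mul_assoc, ← mul_pow, inv_mul_cancel₀ ha, one_pow, one_mul]
    · rintro p q s ⟨a, ha, h1, h2⟩ ⟨b, hb, h3, h4⟩
      refine ⟨b * a, mul_ne_zero hb ha, ?_, ?_⟩
      · rw [h3, h1, smul_smul]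
      · rw [h4, h2, ← mul_assoc, ← mul_pow]

/-- The weighted projective space `P(1, …, 1, m)` with coordinates `(x_0, …, x_N, w)`. -/
def WPSpace (N m : ℕ) : Type := Quotient (weightedSetoid N m)

/-- The point `[x : w]` of `P(1, …, 1, m)`. -/
def point {N : ℕ} (m : ℕ) (x : Fin (N + 1) → ℂ) (w : ℂ) (h : (x, w) ≠ 0) : WPSpace N m :=
  Quotient.mk (weightedSetoid N m) ⟨(x, w), h⟩

/-- The map `f` to `P(1, …, 1, m)` is holomorphic at `z`: near `z` it is given by homogeneous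
coordinates that are holomorphic and have no common zero.  (For maps into a cyclic cover, which
does not contain the point `[0 : 1]`, this is the usual notion.) -/
def HolomorphicAt {N m : ℕ} (f : ℂ → WPSpace N m) (z : ℂ) : Prop :=
  ∃ φ : ℂ → (Fin (N + 1) → ℂ) × ℂ, AnalyticAt ℂ φ z ∧
    ∀ᶠ y in 𝓝 z, ∃ h : ((φ y).1, (φ y).2) ≠ 0, f y = point m (φ y).1 (φ y).2 h

lemma point_eq_iff {N m : ℕ} {x y : Fin (N + 1) → ℂ} {w u : ℂ} {h : (x, w) ≠ 0}
    {k : (y, u) ≠ 0} : point m x w h = point m y u k ↔ ∃ a : ℂ, a ≠ 0 ∧ y = a • x ∧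
      u = a ^ m * w :=
  Quotient.eq (r := weightedSetoid N m) (x := ⟨(x, w), h⟩) (y := ⟨(y, u), k⟩)

lemma point_congr {N m : ℕ} {x y : Fin (N + 1) → ℂ} {w u : ℂ} {h : (x, w) ≠ 0}
    {k : (y, u) ≠ 0} (h1 : x = y) (h2 : w = u) : point m x w h = point m y u k := by
  subst h1 h2
  rfl

lemma eval_smul_homogeneous {n m : ℕ} {G : MvPolynomial (Fin n) ℂ} (hG : G.IsHomogeneous m)
    (a : ℂ) (v : Fin n → ℂ) :
    MvPolynomial.eval (a • v) G = a ^ m * MvPolynomial.eval v G := by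
  rw [MvPolynomial.eval_eq', MvPolynomial.eval_eq', Finset.mul_sum]
  apply Finset.sum_congr rfl
  intro d hd
  have hdeg : ∑ i, d i = m := by
    have := hG (MvPolynomial.mem_support_iff.mp hd)
    rw [← this, Finsupp.weight_apply, Finsupp.sum_fintype]
    · simp
    · simp
  have : ∏ i, (a • v) i ^ d i = a ^ m * ∏ i, v i ^ d i := by
    simp only [Pi.smul_apply, smul_eq_mul, mul_pow]
    rw [Finset.prod_mul_distrib, Finset.prod_pow_eq_pow_sum, hdeg]
  rw [this]
  ring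

lemma eval_reflect {N : ℕ} {q : Polynomial ℂ} (hq : q.natDegree ≤ N) {s : ℂ} (hs : s ≠ 0) :
    (q.reflect N).eval s = s ^ N * q.eval s⁻¹ := by
  have hinv : Invertible (s⁻¹) := invertibleOfNonzero (inv_ne_zero hs)
  have h := Polynomial.eval₂_reflect_mul_pow (RingHom.id ℂ) (s⁻¹) N q hq
  have h1 : ⅟(s⁻¹) = s := by
    rw [invOf_eq_inv, inv_inv]
  rw [h1] at h
  rw [← Polynomial.eval₂_id, ← Polynomial.eval₂_id, ← h]
  rw [mul_comm, mul_assoc, ← mul_pow, inv_mul_cancel₀ hs, one_pow, mul_one]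

/-- A line in `Y` through `x` on which `F` is `q ^ r g`. -/
structure LineData {N c : ℕ} (r m κ : ℕ) (G : Fin c → MvPolynomial (Fin (N + 1)) ℂ)
    (F : MvPolynomial (Fin (N + 1)) ℂ) (x v : Fin (N + 1) → ℂ) (q g : Polynomial ℂ) : Prop where
  indep : ∀ α β : ℂ, α • x + β • v = 0 → α = 0 ∧ β = 0
  degq : q.natDegree ≤ m - κ
  degg : g.natDegree ≤ κ + 2
  q0 : q.eval 0 = 1
  g0 : g.eval 0 = MvPolynomial.eval x F
  zeroG : ∀ i (α β : ℂ), MvPolynomial.eval (α • x + β • v) (G i) = 0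
  evalF : ∀ t : ℂ, MvPolynomial.eval (x + t • v) F = q.eval t ^ r * g.eval t
  evalF' : ∀ s : ℂ, MvPolynomial.eval (s • x + v) F =
    (q.reflect (m - κ)).eval s ^ r * (g.reflect (κ + 2)).eval s

section Param

variable {N c r m κ p : ℕ} {G : Fin c → MvPolynomial (Fin (N + 1)) ℂ}
  {F : MvPolynomial (Fin (N + 1)) ℂ} {x v : Fin (N + 1) → ℂ} {q g : Polynomial ℂ}

lemma LineData.ne_zero (hL : LineData r m κ G F x v q g) (t : ℂ) : x + t • v ≠ 0 := by
  intro h
  have := hL.indep 1 t (by rw [one_smul]; exact h)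
  exact one_ne_zero this.1

lemma LineData.ne_zero' (hL : LineData r m κ G F x v q g) (s : ℂ) : s • x + v ≠ 0 := by
  intro h
  have := hL.indep s 1 (by rw [one_smul]; exact h)
  exact one_ne_zero this.2

lemma pair_ne {x : Fin (N + 1) → ℂ} {w : ℂ} (h : x ≠ 0) : (x, w) ≠ 0 := by
  intro h0
  exact h (congrArg Prod.fst h0)

/-- The map from the curve `w ^ r = g(t)` to the cyclic cover. -/
noncomputable def Φ (hL : LineData r m κ G F x v q g) :
    Pool.Agent.H84.Curve.Pt → WPSpace N m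
  | Sum.inl a => point m (x + a.1 • v) (q.eval a.1 * a.2) (pair_ne (hL.ne_zero _))
  | Sum.inr b => point m ((0 : ℂ) • x + v) ((q.reflect (m - κ)).eval 0 * b)
      (pair_ne (hL.ne_zero' _))

lemma Φ_mkB (hL : LineData r m κ G F x v q g) (hκm : κ ≤ m) (a : ℂ × ℂ) :
    Φ hL (Pool.Agent.H84.Curve.mkB κ a) = point m (a.1 • x + v)
      ((q.reflect (m - κ)).eval a.1 * a.2) (pair_ne (hL.ne_zero' _)) := by
  unfold Pool.Agent.H84.Curve.mkB
  split_ifs with h
  · show point m ((0 : ℂ) • x + v) ((q.reflect (m - κ)).eval 0 * a.2) _ = _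
    exact point_congr (by rw [h]) (by rw [h])
  · show point m (x + a.1⁻¹ • v) (q.eval a.1⁻¹ * (a.2 * a.1⁻¹ ^ κ)) _ = _
    rw [point_eq_iff]
    refine ⟨a.1, h, ?_, ?_⟩
    · rw [smul_add, smul_smul, mul_inv_cancel₀ h, one_smul]
    · rw [eval_reflect hL.degq h]
      obtain ⟨k, rfl⟩ := Nat.exists_eq_add_of_le hκm
      rw [Nat.add_sub_cancel_left, inv_pow, pow_add]
      field_simp

lemma Φ_holomorphicAt (hL : LineData r m κ G F x v q g) (hκm : κ ≤ m)
    {f : ℂ → Pool.Agent.H84.Curve.Pt} {z : ℂ} (hf : Pool.Agent.H84.Curve.LocSol p κ g f z) :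
    HolomorphicAt (fun y => Φ hL (f y)) z := by
  have hpoly : ∀ (P : Polynomial ℂ) {h : ℂ → ℂ} {z : ℂ}, AnalyticAt ℂ h z →
      AnalyticAt ℂ (fun y => P.eval (h y)) z := by
    intro P h z hh
    have h1 : AnalyticAt ℂ (fun y : ℂ => P.eval y) (h z) :=
      (P.differentiable.differentiableOn (s := Set.univ)).analyticAt Filter.univ_mem
    exact h1.comp hh
  rcases hf with ⟨u, hu⟩ | ⟨u, hu⟩
  · have hua : AnalyticAt ℂ u z := by
      rw [Complex.analyticAt_iff_eventually_differentiableAt]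
      filter_upwards [hu] with y hy using hy.1.differentiableAt
    have hu1 : AnalyticAt ℂ (fun y => (u y).1) z := analyticAt_fst.comp hua
    have hu2 : AnalyticAt ℂ (fun y => (u y).2) z := analyticAt_snd.comp hua
    refine ⟨fun y => (x + (u y).1 • v, q.eval (u y).1 * (u y).2), ?_, ?_⟩
    · exact (analyticAt_const.add (hu1.smul analyticAt_const)).prod ((hpoly q hu1).mul hu2)
    · filter_upwards [hu] with y hy
      refine ⟨pair_ne (hL.ne_zero _), ?_⟩
      show Φ hL (f y) = _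
      rw [hy.2.2]
      rfl
  · have hua : AnalyticAt ℂ u z := by
      rw [Complex.analyticAt_iff_eventually_differentiableAt]
      filter_upwards [hu] with y hy using hy.1.differentiableAt
    have hu1 : AnalyticAt ℂ (fun y => (u y).1) z := analyticAt_fst.comp hua
    have hu2 : AnalyticAt ℂ (fun y => (u y).2) z := analyticAt_snd.comp hua
    refine ⟨fun y => ((u y).1 • x + v, (q.reflect (m - κ)).eval (u y).1 * (u y).2), ?_, ?_⟩
    · exact ((hu1.smul analyticAt_const).add analyticAt_const).prod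
        ((hpoly (q.reflect (m - κ)) hu1).mul hu2)
    · filter_upwards [hu] with y hy
      refine ⟨pair_ne (hL.ne_zero' _), ?_⟩
      show Φ hL (f y) = _
      rw [hy.2.2, Φ_mkB hL hκm]

/-- Entire curves in the cyclic cover over a line. -/
lemma exists_entire_of_lineData (hL : LineData r m κ G F x v q g) (hp : p + 1 = r)
    (hκp : κ * p = 2) (hκm : κ ≤ m) (w : ℂ) (hx0 : x ≠ 0)
    (hwx : w ^ r = MvPolynomial.eval x F) (hFx : MvPolynomial.eval x F ≠ 0) :
    ∃ f : ℂ → WPSpace N m, (∀ z, HolomorphicAt f z) ∧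
      (∀ z, ∃ X W h, f z = point m X W h ∧ (∀ i, MvPolynomial.eval X (G i) = 0) ∧
        W ^ r = MvPolynomial.eval X F) ∧
      f 0 = point m x w (pair_ne hx0) ∧
      ∃ (ζ : ℂ) (y : Fin (N + 1) → ℂ) (u : ℂ) (hy : y ≠ 0), ‖ζ‖ < 1 ∧
        f ζ = point m y u (pair_ne hy) ∧ f ζ ≠ f 0 := by
  have hp0 : p ≠ 0 := by rintro rfl; simp at hκp
  have hr0 : r ≠ 0 := by omega
  have hw0 : w ≠ 0 := by
    rintro rfl
    rw [zero_pow hr0] at hwx
    exact hFx hwx.symm
  have hon : Pool.Agent.H84.Curve.OnCurve p κ g (Sum.inl (0, w)) := by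
    show w ^ (p + 1) = g.eval 0
    rw [hp, hL.g0, hwx]
  obtain ⟨f, hf0, hf⟩ := Pool.Agent.H84.Curve.exists_entire hκp hL.degg hon
  have hΦ0 : Φ hL (f 0) = point m x w (pair_ne hx0) := by
    rw [hf0]
    show point m (x + (0 : ℂ) • v) (q.eval 0 * w) _ = _
    exact point_congr (by rw [zero_smul, add_zero]) (by rw [hL.q0, one_mul])
  -- a point with a different image
  obtain ⟨u, hu⟩ := Pool.Agent.H84.Curve.exists_solA hκp hL.degg (hf 0) hf0
  have hu0 : u 0 = (0, w) := (Sum.inl_injective (hf0.symm.trans hu.self_of_nhds.2.2)).symm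
  have hder : HasDerivAt (fun y => (u y).1) (w ^ p) 0 := by
    have h1 := hu.self_of_nhds.1.fst
    rw [hu0] at h1
    exact h1
  have hne : ∀ᶠ y in 𝓝[≠] (0 : ℂ), (u y).1 ≠ 0 := by
    have h1 := hder.eventually_ne (c := 0) (pow_ne_zero _ hw0)
    exact h1
  have hev : ∀ᶠ y in 𝓝[≠] (0 : ℂ), (u y).1 ≠ 0 ∧
      Pool.Agent.H84.Curve.SolA p g f u y ∧ ‖y‖ < 1 := by
    refine hne.and ((hu.filter_mono nhdsWithin_le_nhds).and ?_)
    have h2 : ∀ᶠ y in 𝓝 (0 : ℂ), ‖y‖ < 1 := by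
      have := (continuous_norm.tendsto (0 : ℂ)).eventually (gt_mem_nhds
        (show ‖(0 : ℂ)‖ < 1 by simp))
      exact this
    exact h2.filter_mono nhdsWithin_le_nhds
  obtain ⟨ζ, hζ1, hζ2, hζ3⟩ := hev.exists
  have hΦζ : Φ hL (f ζ) = point m (x + (u ζ).1 • v) (q.eval (u ζ).1 * (u ζ).2)
      (pair_ne (hL.ne_zero _)) := by
    rw [hζ2.2.2]
    rfl
  refine ⟨fun z => Φ hL (f z), fun z => Φ_holomorphicAt hL hκm (hf z), ?_, hΦ0, ζ,
    _, _, hL.ne_zero _, hζ3, hΦζ, ?_⟩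
  · intro z
    have ha := Pool.Agent.H84.Curve.onCurve_of_locSol hκp hL.degg (hf z)
    show ∃ X W h, Φ hL (f z) = point m X W h ∧ _
    generalize f z = a at ha
    rcases a with a | b
    · refine ⟨_, _, _, rfl, ?_, ?_⟩
      · intro i
        have := hL.zeroG i 1 a.1
        rwa [one_smul] at this
      · have h1 : a.2 ^ (p + 1) = g.eval a.1 := ha
        rw [hL.evalF, mul_pow, ← h1, hp]
    · refine ⟨_, _, _, rfl, ?_, ?_⟩
      · intro i
        have := hL.zeroG i 0 1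
        rwa [one_smul] at this
      · have h1 : b ^ (p + 1) = (g.reflect (κ + 2)).eval 0 := ha
        rw [hL.evalF', mul_pow, ← h1, hp]
  · show Φ hL (f ζ) ≠ Φ hL (f 0)
    rw [hΦζ, hΦ0, Ne, point_eq_iff]
    rintro ⟨a, ha, h1, -⟩
    have h2 : (a - 1) • x + (a * (u ζ).1) • v = 0 := by
      have h3 : (a - 1) • x + (a * (u ζ).1) • v = a • (x + (u ζ).1 • v) - x := by
        rw [smul_add, smul_smul, sub_smul, one_smul]
        abel
      rw [h3, ← h1, sub_self]
    have h4 := (hL.indep _ _ h2).2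
    rcases mul_eq_zero.mp h4 with h5 | h5
    · exact ha h5
    · exact hζ1 h5

end Param

end Pool.Agent.H84.WPS
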